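import Pool.Agent.H84.S6.Ci
import Pool.Agent.H7.S6.AzSec
import Pool.Agent.H42.S6C.Row

/-!
# CROSS: assembly

`XLStmt`: labels with a chart in the A-zooms of windows slightly longer than a window on which the
directions are constant (leaf in the finer zoom, change of box). With the step at the top row this
gives `CROSS`.
-/

set_option autoImplicit false

namespace Pool.ZCL

open Finset Real
open Pool.Agent.H49.Ent Pool.Agent.H32.Dense Pool.STK Pool.KA Pool.KSAT Pool.K2S Pool.PB Pool.KS6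
open Pool.S6C

/-- **A label with a chart in the A-zoom** of `(w, s)`, on an event of cost `δ`: degree at most
`K₁`, window at most `x` and precision at least `1 - x`, in units of the resolution of the zoom,
visible at the exact points of the zoom. -/
def XL {J : ℕ} (F : Fam 3 J) (i₀ : Fin 3) (Q w s h₂ x : ℝ) (K₁ : ℕ) (δ : ℝ)
    (A : F.Ω → Prop) : Prop :=
  ∃ (B : F.Ω → Prop) (z : F.Ω → Fin 3 → ℝ), Sub B A ∧
    Real.exp (-(δ * J)) * Pe F.p A ≤ Pe F.p B ∧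
    AzF F i₀ ⌊Q * J⌋₊ ⌊s * J⌋₊ ⌊w * J⌋₊ B z ∧
    ∃ (hB : IsLaw (cond F.p B True)) (h : ⌊w * J⌋₊ + azJ Q w s J ≤ J) (i₁ : Fin 3)
      (K a P : ℕ), K ≤ K₁ ∧ (a : ℝ) ≤ x * azJ Q w s J ∧ (1 - x) * azJ Q w s J ≤ P ∧
      Ch (azG F i₀ Q w s B z hB h) i₁ ⌊h₂ * azJ Q w s J⌋₊ B ∧
      Lab (azG F i₀ Q w s B z hB h) i₁ (azJ Q w s J) K a a P B

/-- **Labels with a chart in the A-zooms**: leaf with chart in the zoom of the window `v` on which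
the directions are constant, and change of box. `h₂` depends on the class only, `K₁` and `b` do
not depend on the windows. -/
def XLStmt : Prop :=
  (∀ S : FCl 3, SPS S 1 → STP S) → (∀ S : FCl 3, SPS S 1 → SLP S) →
  ∀ (S : PCl 3) (a R h₁ : ℝ) (i₀ : Fin 3) (c s₂ : ℝ) (r : ℝ → ℝ) (D : Set ℝ) (σ : ℝ → Row),
    Cs S a R h₁ i₀ c s₂ r D σ → ∀ S' : PCl 3, SubC S' S → BRate S' r →
    ∀ Q : ℝ, 1 / 2 ≤ Q → Q ≤ 1 → Q ∉ D → Plr r c Q → BTail S' c Q → 0 < (σ Q).pi →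
    ∃ h₂ : ℝ, 0 < h₂ ∧ ∀ e x : ℝ, 0 < e → 0 < x → ∃ (K₁ : ℕ) (b : ℝ), 0 < b ∧
    ∀ w v : ℚ, 0 < w → w ≤ v → v ≤ 1 → (v : ℝ) ≤ w + b → (σ Q).rot v = (σ Q).pi →
      (σ Q).pi - b ≤ (σ Q).rot w → (w : ℝ) + (σ Q).pi + 2 * e ≤ Q →
    ∀ ζ δ : ℝ, 0 < ζ → ζ ≤ b → 0 < δ →
      Bas S' (fun _ F A => XL F i₀ Q w ((σ Q).rot w - ζ) h₂ x K₁ δ A)

theorem PNum.cap_nonneg {S : PCl 3} (hS : S.Ne) {c : ℝ} {q : ℝ → Stat 3} {s : ℝ}
    (h : PNum S (capS c q) s) : 0 ≤ s := by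
  by_contra hcon
  push Not at hcon
  refine Clp.not_false hS (Clp.mono (J₂ := 0) (h.2 (-s) (by linarith)) ?_)
  intro J _ F A h1
  exact h1 (Or.inl (by linarith))

/-- The rows of the step at the top row. -/
theorem rows_cvt {N E d J' a P : ℕ} (hN : N = E * d) (hd : 0 < d) (hE : 2 ≤ E)
    (hJ' : 2 * (N : ℝ) ≤ J') (ha : (a : ℝ) ≤ 1 / E * J') (hP : (1 - 1 / E) * (J' : ℝ) ≤ P) :
    a ≤ 2 * d * (J' / N) ∧ (N - d) * (J' / N) ≤ P ∧ 2 * d * (J' / N) ≤ J' := by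
  have hE0 : 0 < E := by omega
  have hE0r : (0 : ℝ) < E := by exact_mod_cast hE0
  have hNr : (N : ℝ) = E * d := by rw [hN]; push_cast; ring
  have hd0r : (0 : ℝ) < d := by exact_mod_cast hd
  have hN0 : 0 < N := by rw [hN]; positivity
  have hN0r : (0 : ℝ) < N := by exact_mod_cast hN0
  have hdN : d ≤ N := by
    rw [hN]
    exact Nat.le_mul_of_pos_left d hE0
  have hq1 : (J' : ℝ) < N * ((J' / N : ℕ) : ℝ) + N := by
    have h1 : J' < N * (J' / N) + N := by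
      have := Nat.div_add_mod J' N
      have := Nat.mod_lt J' hN0
      omega
    exact_mod_cast h1
  have hq2 : (N : ℝ) * ((J' / N : ℕ) : ℝ) ≤ J' := by exact_mod_cast Nat.mul_div_le J' N
  refine ⟨?_, ?_, ?_⟩
  · have h2 : (a : ℝ) ≤ ((2 * d * (J' / N) : ℕ) : ℝ) := by
      rw [Nat.cast_mul, Nat.cast_mul, Nat.cast_ofNat]
      refine ha.trans ?_
      rw [one_div, inv_mul_le_iff₀ hE0r]
      have h3 : (E : ℝ) * (2 * d * ((J' / N : ℕ) : ℝ)) = 2 * (N * ((J' / N : ℕ) : ℝ)) := by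
        rw [hNr]
        ring
      rw [h3]
      linarith
    exact_mod_cast h2
  · have h2 : (((N - d) * (J' / N) : ℕ) : ℝ) ≤ P := by
      rw [Nat.cast_mul, Nat.cast_sub hdN]
      refine le_trans ?_ hP
      have h3 : (N : ℝ) - d = (1 - 1 / E) * N := by
        rw [hNr]
        field_simp
      rw [h3, mul_assoc]
      refine mul_le_mul_of_nonneg_left hq2 ?_
      have : 1 / (E : ℝ) ≤ 1 := by
        rw [div_le_one hE0r]
        exact_mod_cast hE0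
      linarith
    exact_mod_cast h2
  · have h1 : 2 * d ≤ N := by
      rw [hN]
      exact Nat.mul_le_mul_right d hE
    exact (Nat.mul_le_mul_right _ h1).trans (Nat.mul_div_le J' N)

/-- The block of `CI` on one scale. -/
def CIb (S : PCl 3) (i₀ : Fin 3) (Q w s : ℝ) (D : ℕ) (p δ : ℝ) : Prop :=
  Clp S (fun J F A => ∃ B : F.Ω → Prop, Sub B A ∧ Real.exp (-(δ * J)) * Pe F.p A ≤ Pe F.p B ∧
    CIQ F ⌊Q * J⌋₊ i₀ ⌊w * J⌋₊ ⌊s * J⌋₊ (⌊Q * J⌋₊ - ⌊w * J⌋₊ - ⌊s * J⌋₊) D ⌊p * J⌋₊ B)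

/-- **CROSS** from its modules, in the form with blocks. -/
theorem cross_core (hX : XLStmt) :
    (∀ S : FCl 3, SPS S 1 → STP S) → (∀ S : FCl 3, SPS S 1 → SLP S) → JSTT 3 →
    ∀ (S : PCl 3) (a R h₁ : ℝ) (i₀ : Fin 3) (c s₂ : ℝ) (r : ℝ → ℝ) (D : Set ℝ) (σ : ℝ → Row),
    Cs S a R h₁ i₀ c s₂ r D σ → ∃ S' : PCl 3, SubC S' S ∧ ∀ Q : ℝ, 1 / 2 ≤ Q → Q ≤ 1 → Q ∉ D →
    Plr r c Q → 0 < (σ Q).pi →
    ∃ D' : ℕ, ∀ e : ℝ, 0 < e → ∃ b : ℝ, 0 < b ∧ ∀ w v : ℚ, 0 < w → w ≤ v → v ≤ 1 →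
      (v : ℝ) ≤ w + b → (σ Q).rot v = (σ Q).pi → (σ Q).pi - b ≤ (σ Q).rot w →
      (w : ℝ) + (σ Q).pi + 2 * e ≤ Q → ∀ ζ δ : ℝ, 0 < ζ → ζ ≤ b → 0 < δ →
      CIb S' i₀ Q w ((σ Q).rot w - ζ) D' (Q - w - (σ Q).rot w - e) δ := by
  classical
  intro hSTP hSLP hJ S a R h₁ i₀ c s₂ r D σ hC
  obtain ⟨S', hS', hBR, hBT⟩ := btail_sub hC
  refine ⟨S', hS', fun Q hQh hQ1 hQD hP hpi => ?_⟩
  have hQ0 : 0 < Q := by linarith
  have hT := hBT Q hQ0.le hQ1 hP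
  have hR := hC.row Q hQ0 hQ1 hQD
  have H : AzH S' a R h₁ i₀ Q (σ Q).pi := (AzH.of_cs hC hQ0 hQ1 hQD).sub hS'
  obtain ⟨h₂, hh₂, hXL⟩ :=
    hX hSTP hSLP S a R h₁ i₀ c s₂ r D σ hC S' hS' hBR Q hQh hQ1 hQD hP hT hpi
  obtain ⟨D', Cs', E₀, hJ1⟩ := az_step3 hJ hC.c0 hh₂
  refine ⟨D', fun e he => ?_⟩
  -- the mesh
  obtain ⟨E₁, hE₁⟩ := exists_nat_gt (2 * (Cs' : ℝ) / e)
  obtain ⟨E, hE⟩ : ∃ E : ℕ, E = E₀ + E₁ + 2 := ⟨_, rfl⟩
  have hE0 : 0 < E := by omega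
  have hE0r : (0 : ℝ) < E := by exact_mod_cast hE0
  have hECs : 2 * (Cs' : ℝ) ≤ e * E := by
    rw [div_lt_iff₀ he] at hE₁
    have : (E₁ : ℝ) ≤ E := by exact_mod_cast (by omega : E₁ ≤ E)
    nlinarith
  obtain ⟨K₁, b₁, hb₁, hXL1⟩ := hXL e (1 / E) he (by positivity)
  have hN1 := hJ1 E (by omega) hE0
  choose N₁ hN₁ using hN1
  obtain ⟨d, hd⟩ : ∃ d : ℕ, d = 1 + ∑ K ∈ range (K₁ + 1), N₁ K := ⟨_, rfl⟩
  have hd0 : 0 < d := by omega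
  obtain ⟨N, hN⟩ : ∃ N : ℕ, N = E * d := ⟨_, rfl⟩
  have hNK : ∀ K ≤ K₁, N₁ K ≤ N := by
    intro K hK
    have h1 : N₁ K ≤ ∑ K ∈ range (K₁ + 1), N₁ K :=
      Finset.single_le_sum (fun _ _ => Nat.zero_le _) (Finset.mem_range.2 (by omega))
    have h2 : d ≤ N := by
      rw [hN]
      exact Nat.le_mul_of_pos_left d hE0
    omega
  -- one scale of spread for all degrees
  obtain ⟨g, hg0, hg⟩ : ∃ g : ℝ, 0 < g ∧ ∀ K ≤ K₁, ∀ δ : ℝ, 0 < δ →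
      ∀ w s : ℝ, 0 ≤ w → w + max s 0 + e ≤ Q → (σ Q).pi - e * g / 16 ≤ s →
      Bas S' (fun J F A => ∀ z : F.Ω → Fin 3 → ℝ,
        AzF F i₀ ⌊Q * J⌋₊ ⌊s * J⌋₊ ⌊w * J⌋₊ A z →
        ∀ (hA : IsLaw (cond F.p A True)) (hw : ⌊w * J⌋₊ + azJ Q w s J ≤ J)
          (i₁ : Fin 3) (i p : ℕ), i ≤ 2 * d → N ≤ p + d → p < N →
          Ch (azG F i₀ Q w s A z hA hw) i₁ ⌊h₂ * azJ Q w s J⌋₊ A →
          Lab (azG F i₀ Q w s A z hA hw) i₁ (azJ Q w s J) K (i * (azJ Q w s J / N))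
            (i * (azJ Q w s J / N)) (p * (azJ Q w s J / N)) A →
          ∃ (V : Type) (v : F.Ω → V) (B : F.Ω → Prop),
            Sel (azG F i₀ Q w s A z hA hw) v B ∧
            Real.exp (-(δ * azJ Q w s J)) ≤ Pe (cond F.p A True) B ∧
            ∀ ω, 0 < cond F.p A True ω → B ω →
              ∀ hl : IsLaw (cond (cond F.p A True) v (v ω)), ∃ B' : F.Ω → Prop,
                Sub B' (fun ω' => B ω' ∧ v ω' = v ω) ∧
                Real.exp (-(δ * azJ Q w s J)) *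
                    Pe (cond (cond F.p A True) v (v ω)) (fun ω' => B ω' ∧ v ω' = v ω) ≤
                  Pe (cond (cond F.p A True) v (v ω)) B' ∧
                ClG ((azG F i₀ Q w s A z hA hw).res v (v ω) hl) i₁ (azJ Q w s J) D' 0
                  ((N - Cs' * d) * (azJ Q w s J / N)) B') := by
    have hgK : ∀ K : ℕ, ∃ g : ℝ, 0 < g ∧ (K ≤ K₁ → ∀ δ : ℝ, 0 < δ →
        ∀ w s : ℝ, 0 ≤ w → w + max s 0 + e ≤ Q → (σ Q).pi - e * g / 16 ≤ s →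
        Bas S' (fun J F A => ∀ z : F.Ω → Fin 3 → ℝ,
          AzF F i₀ ⌊Q * J⌋₊ ⌊s * J⌋₊ ⌊w * J⌋₊ A z →
          ∀ (hA : IsLaw (cond F.p A True)) (hw : ⌊w * J⌋₊ + azJ Q w s J ≤ J)
            (i₁ : Fin 3) (i p : ℕ), i ≤ 2 * d → N ≤ p + d → p < N →
            Ch (azG F i₀ Q w s A z hA hw) i₁ ⌊h₂ * azJ Q w s J⌋₊ A →
            Lab (azG F i₀ Q w s A z hA hw) i₁ (azJ Q w s J) K (i * (azJ Q w s J / N))
              (i * (azJ Q w s J / N)) (p * (azJ Q w s J / N)) A →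
            ∃ (V : Type) (v : F.Ω → V) (B : F.Ω → Prop),
              Sel (azG F i₀ Q w s A z hA hw) v B ∧
              Real.exp (-(δ * azJ Q w s J)) ≤ Pe (cond F.p A True) B ∧
              ∀ ω, 0 < cond F.p A True ω → B ω →
                ∀ hl : IsLaw (cond (cond F.p A True) v (v ω)), ∃ B' : F.Ω → Prop,
                  Sub B' (fun ω' => B ω' ∧ v ω' = v ω) ∧
                  Real.exp (-(δ * azJ Q w s J)) *
                      Pe (cond (cond F.p A True) v (v ω)) (fun ω' => B ω' ∧ v ω' = v ω) ≤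
                    Pe (cond (cond F.p A True) v (v ω)) B' ∧
                  ClG ((azG F i₀ Q w s A z hA hw).res v (v ω) hl) i₁ (azJ Q w s J) D' 0
                    ((N - Cs' * d) * (azJ Q w s J / N)) B')) := by
      intro K
      by_cases hK : K ≤ K₁
      · obtain ⟨g, h1, -, h2⟩ := hN₁ K N (hNK K hK) d hN
        refine ⟨g, h1, fun _ δ hδ w s hw hws hs => ?_⟩
        obtain ⟨ψ₁, hψ₁, h4⟩ := h2 H hT e he δ δ hδ hδ
        obtain ⟨J₁, h5⟩ := h4 w s hw hws hs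
        refine ⟨ψ₁, hψ₁, J₁, fun J hJ F A hA z hz hlaw hwJ i₁ i p hi hp1 hp2 hCh hLab => ?_⟩
        obtain ⟨V, v, B, -, k1, k2, k3⟩ :=
          (h5 J hJ F A hA z hz hlaw hwJ).2 i₁ i p hi hp1 hp2 hCh hLab
        exact ⟨V, v, B, k1, k2, k3⟩
      · exact ⟨1, one_pos, fun h => absurd h hK⟩
    choose gK hgK0 hgK1 using hgK
    obtain ⟨g, hg0, hg⟩ := exists_low hgK0 K₁
    refine ⟨g, hg0, fun K hK δ hδ w s hw hws hs => hgK1 K hK δ hδ w s hw hws (le_trans ?_ hs)⟩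
    have := mul_le_mul_of_nonneg_left (hg K hK) he.le
    linarith
  obtain ⟨b, hb⟩ : ∃ b, b = min b₁ (e * g / 32) := ⟨_, rfl⟩
  have hb0 : 0 < b := by rw [hb]; exact lt_min hb₁ (by positivity)
  have hbb : b ≤ b₁ := by rw [hb]; exact min_le_left _ _
  have hbg : b ≤ e * g / 32 := by rw [hb]; exact min_le_right _ _
  refine ⟨b, hb0, fun w v hw0 hwv hv1 hvw hrv hrw hwQ ζ δ hζ hζb hδ => ?_⟩
  have hw1 : w ≤ 1 := hwv.trans hv1
  have hwr : (0 : ℝ) < w := by exact_mod_cast hw0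
  have hrot0 : 0 ≤ (σ Q).rot w := PNum.cap_nonneg hC.ne (hR.rot w hw0.le hw1)
  have hrotpi : (σ Q).rot w ≤ (σ Q).pi := hR.rot_le hC.ne hw0.le hw1
  obtain ⟨s, hs⟩ : ∃ s, s = (σ Q).rot w - ζ := ⟨_, rfl⟩
  have hs1 : max s 0 ≤ (σ Q).rot w := by
    rw [hs]
    exact max_le (by linarith) hrot0
  have hws : (w : ℝ) + max s 0 + e ≤ Q := by linarith
  have hspi : (σ Q).pi - e * g / 16 ≤ s := by
    rw [hs]
    linarith
  have hXL2 := hXL1 w v hw0 hwv hv1 (by linarith) hrv (by linarith) hwQ ζ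
  rw [← hs] at hXL2 ⊢
  unfold CIb
  refine ci_of_sec (x := Q - w - max s 0) (e := e) (E := E) he hwr.le hws hN hd0 hE0 hECs he
    (by linarith) le_rfl ?_ hδ
  intro δ₀ hδ₀
  -- the step at the top row
  have hp : N - d < N := by
    have : d ≤ N := by
      rw [hN]
      exact Nat.le_mul_of_pos_left d hE0
    omega
  have hS3 := Bas.all (K₁ + 1) fun K hK => hg K (by omega) δ₀ hδ₀ w s hwr.le hws hspi
  obtain ⟨τ₃, hτ₃, J₃, hS3'⟩ := hS3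
  obtain ⟨τ₂, hτ₂, J₂, hXL3⟩ := hXL2 (min δ₀ (τ₃ / 2)) hζ (hζb.trans hbb)
    (lt_min hδ₀ (by positivity))
  obtain ⟨Jx, hJx⟩ := exists_nat_gt (2 / e + 4 * N / e)
  refine Clp.of (τ := min τ₂ (τ₃ / 2)) (lt_min hτ₂ (by positivity)) (max (max J₂ J₃) Jx)
    fun J hJ F A hSt => ?_
  have hJ2 : J₂ ≤ J := (le_max_left _ _).trans ((le_max_left _ _).trans hJ)
  have hJ3 : J₃ ≤ J := (le_max_right _ _).trans ((le_max_left _ _).trans hJ)
  have hJx' : 2 / e + 4 * (N : ℝ) / e < J :=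
    hJx.trans_le (by exact_mod_cast (le_max_right _ _).trans hJ)
  have q1 : 0 < 2 / e := by positivity
  have q2 : 0 ≤ 4 * (N : ℝ) / e := by positivity
  have hJ0 : (0 : ℝ) < J := by linarith
  obtain ⟨B, z, hB, hPB, hz, hlaw, h, i₁, K, a', P, hK, ha', hP', hCh, hLab⟩ :=
    hXL3 J hJ2 F A (S'.mono (min_le_left _ _) hSt)
  have hStB : S'.St τ₃ J F B := by
    have h1 := S'.res (τ' := min δ₀ (τ₃ / 2)) (lt_min hδ₀ (by positivity)).le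
      (S'.mono (min_le_right _ _) hSt) hB hPB
    exact S'.mono (by linarith [min_le_right δ₀ (τ₃ / 2)]) h1
  obtain ⟨hadd, hJ'⟩ := azJ_add he hwr.le hws (J := J) (by linarith)
  obtain ⟨J', hJ'e⟩ : ∃ J' : ℕ, J' = azJ Q w s J := ⟨_, rfl⟩
  have hJ'N : 2 * (N : ℝ) ≤ J' := by
    have h1 : 4 * (N : ℝ) / e ≤ J := by linarith
    rw [div_le_iff₀ he] at h1
    rw [hJ'e]
    linarith
  -- the label in the rows of the step
  rw [hJ'e] at hJ'N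
  obtain ⟨r1, r2, r3⟩ := rows_cvt hN hd0 (by omega) hJ'N ha' hP'
  have hlab : Lab (azG F i₀ Q w s B z hlaw h) i₁ (azJ Q w s J) K (2 * d * (azJ Q w s J / N))
      (2 * d * (azJ Q w s J / N)) ((N - d) * (azJ Q w s J / N)) B :=
    hLab.mono le_rfl le_rfl r1 r1 r3 r2
  obtain ⟨V, v', B', k1, k2, k3⟩ := hS3' J hJ3 F B hStB K (by omega) z hz hlaw h i₁ (2 * d)
    (N - d) le_rfl (by omega) hp hCh hlab
  refine ⟨B, z, hB, ?_, hz, hlaw, h, i₁, V, v', B', k1, k2, k3⟩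
  refine le_trans (mul_le_mul_of_nonneg_right (Real.exp_le_exp.2 ?_) (Pe_nonneg F.isLaw A)) hPB
  have := mul_le_mul_of_nonneg_right (min_le_left δ₀ (τ₃ / 2)) hJ0.le
  linarith

/-- The floor of a rational number, in the rational or in the real numbers. -/
theorem floor_rat (w : ℚ) (J : ℕ) : ⌊w * (J : ℚ)⌋₊ = ⌊(w : ℝ) * (J : ℝ)⌋₊ := by
  have e : (w : ℝ) * (J : ℝ) = ((w * (J : ℚ) : ℚ) : ℝ) := by push_cast; ring
  rw [e]
  have h := Rat.floor_cast (α := ℝ) (w * (J : ℚ))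
  rw [← Int.floor_toNat, ← Int.floor_toNat, h]

/-- **CROSS** from its modules. -/
theorem cross_of (hX : XLStmt) : CROSSStmt := by
  intro hSTP hSLP hJ S a R h₁ i₀ c s₂ r D σ hC
  obtain ⟨S', hS', h⟩ := cross_core hX hSTP hSLP hJ S a R h₁ i₀ c s₂ r D σ hC
  refine ⟨S', hS', fun Q hQh hQ1 hQD hP hpi => ?_⟩
  obtain ⟨D', h'⟩ := h Q hQh hQ1 hQD hP hpi
  refine ⟨D', fun e he => ?_⟩
  obtain ⟨b, hb, h''⟩ := h' e he
  refine ⟨b, hb, fun w v hw0 hwv hv1 hvw hrv hrw hwQ => ⟨b, hb, fun ζ δ hζ hζb hδ => ?_⟩⟩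
  simp only [floor_rat]
  exact h'' w v hw0 hwv hv1 hvw hrv hrw hwQ ζ δ hζ hζb hδ

end Pool.ZCL
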