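import Pool.Agent.H84.S6.Pack2
import Pool.Agent.H84.S6.Cross
import Pool.Agent.H35.ZCL.Xlc

/-!
# Labels with a chart in the A-zooms

The leaves with a chart (`az_leafc`) and the change of box (`chb_box`) give `XLStmt`, and `CROSS`
from the step.
-/

set_option autoImplicit false

namespace Pool.ZCL

open Finset Real
open Pool.Agent.H49.Ent Pool.Agent.H32.Dense Pool.STK Pool.KA Pool.KSAT Pool.K2S Pool.PB Pool.KS6
open Pool.S6C

/-- **Labels with a chart in the A-zooms**, from the leaves and the change of box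
(text of helper42's `xl_of`). -/
theorem xl_thm : XLStmt := by
  classical
  intro hSTP hSLP S a R h₁ i₀ c s₂ r D σ hC S' hS' hBR Q hQh hQ1 hQD hP hT hpi
  have hQ0 : 0 < Q := by linarith only [hQh]
  have hR := (hC.row Q hQ0 hQ1 hQD).le hS'.le
  have H : AzH S' a R h₁ i₀ Q (σ Q).pi := (AzH.of_cs hC hQ0 hQ1 hQD).sub hS'
  have hNe := hS'.ne
  have hc := hC.c0
  obtain ⟨h₂, hh₂, hh₂1, hlf⟩ := az_leafc hSTP hSLP hc
  refine ⟨h₂ / 2, by positivity, fun e x₀ he hx₀ => ?_⟩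
  obtain ⟨x, hx⟩ : ∃ x, x = min (x₀ / 2) (1 / 4) := ⟨_, rfl⟩
  have hx0 : 0 < x := by rw [hx]; exact lt_min (by positivity) (by norm_num)
  have hxx : x ≤ x₀ / 2 := by rw [hx]; exact min_le_left _ _
  have hx4 : x ≤ 1 / 4 := by rw [hx]; exact min_le_right _ _
  have hx1 : x ≤ 1 := by linarith only [hx0, hx4]
  obtain ⟨K₁, hlf1⟩ := hlf H hT hpi he hx0
  obtain ⟨K', b₁, hb₁, hcb⟩ := chb_box H hc hT e h₂ x he hh₂ hh₂1 hx0 hx4 K₁
  obtain ⟨b, hb⟩ : ∃ b, b = min (min (b₁ / 2) ((σ Q).pi / 4)) e := ⟨_, rfl⟩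
  have hb0 : 0 < b := by rw [hb]; exact lt_min (lt_min (by positivity) (by positivity)) he
  have hbb : b ≤ b₁ / 2 := by rw [hb]; exact (min_le_left _ _).trans (min_le_left _ _)
  have hbpi : b ≤ (σ Q).pi / 4 := by rw [hb]; exact (min_le_left _ _).trans (min_le_right _ _)
  have hbe : b ≤ e := by rw [hb]; exact min_le_right _ _
  refine ⟨K', b, hb0, fun w v hw0 hwv hv1 hvw hrv hrw hwQ ζ δ hζ hζb hδ => ?_⟩
  have hw1 : w ≤ 1 := hwv.trans hv1
  have hv0 : 0 < v := hw0.trans_le hwv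
  have hwr : (0 : ℝ) < w := by exact_mod_cast hw0
  have hvr : (0 : ℝ) < v := by exact_mod_cast hv0
  have hwvr : (w : ℝ) ≤ v := by exact_mod_cast hwv
  have hrotpi : (σ Q).rot w ≤ (σ Q).pi := hR.rot_le hNe hw0.le hw1
  obtain ⟨s, hs⟩ : ∃ s, s = (σ Q).rot w - ζ := ⟨_, rfl⟩
  obtain ⟨s₁, hs₁⟩ : ∃ s₁, s₁ = (σ Q).rot w - ζ / 2 := ⟨_, rfl⟩
  have hs0 : 0 < s := by rw [hs]; linarith only [hb0, hbpi, hrw, hζb]
  have hss₁ : s < s₁ := by rw [hs, hs₁]; linarith only [hζ]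
  rw [← hs]
  -- the freedoms
  obtain ⟨ψc, hψc, hcb1⟩ := hcb (δ / 4) (ζ / 2) (by positivity) (by positivity)
  obtain ⟨δ', hδ'⟩ : ∃ δ', δ' = min (δ / 8) (ψc / 8) := ⟨_, rfl⟩
  have hδ'0 : 0 < δ' := by rw [hδ']; positivity
  have hδ'1 : δ' ≤ δ / 8 := by rw [hδ']; exact min_le_left _ _
  have hδ'2 : δ' ≤ ψc / 8 := by rw [hδ']; exact min_le_right _ _
  obtain ⟨bl, hbl, hlf2⟩ := hlf1 δ' hδ'0
  obtain ⟨zs, hzs⟩ : ∃ zs, zs = min bl (ζ / 4) := ⟨_, rfl⟩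
  have hzs0 : 0 < zs := by rw [hzs]; positivity
  have hzs1 : zs ≤ bl := by rw [hzs]; exact min_le_left _ _
  have hzs2 : zs ≤ ζ / 4 := by rw [hzs]; exact min_le_right _ _
  obtain ⟨s', hs'⟩ : ∃ s', s' = (σ Q).pi - zs := ⟨_, rfl⟩
  have hs1s' : s₁ < s' := by rw [hs₁, hs']; linarith only [hrotpi, hzs0, hzs2]
  have hs'pi : s' < (σ Q).pi := by rw [hs']; linarith only [hzs0]
  have hs'0 : 0 < s' := by linarith only [hbpi, hζb, hzs0, hzs2, hs']
  have hrotv : ∀ t < (σ Q).pi, Clp S' (capS 1 (qRot i₀ Q v) t) := by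
    intro t ht
    have h1 := hR.rot v hv0.le hv1
    rw [hrv] at h1
    have h2 := h1.1 ((σ Q).pi - t) (by linarith only [ht])
    rwa [sub_sub_cancel] at h2
  obtain ⟨ψ₀, hψ₀, hleaf⟩ := hlf2 v s' hvr.le (by linarith only [hbe, hvw, hwQ]) hrotv (by rw [hs']; linarith only [hzs1]) hs'pi
  have hrotw : Clp S' (capS 1 (qRot i₀ Q w) s₁) := by
    have h1 := (hR.rot w hw0.le hw1).1 (ζ / 2) (by positivity)
    rwa [← hs₁] at h1
  obtain ⟨κf, hκf⟩ : ∃ κf, κf = min δ' ψ₀ := ⟨_, rfl⟩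
  have hκf0 : 0 < κf := by rw [hκf]; positivity
  have hκf1 : κf ≤ δ' := by rw [hκf]; exact min_le_left _ _
  have hκf2 : κf ≤ ψ₀ := by rw [hκf]; exact min_le_right _ _
  obtain ⟨ψf, hψf, hfr⟩ := az_frames H hrotw hκf0
  obtain ⟨J₁, hcb2⟩ := hcb1 w v s s₁ s' hwr hwvr (by linarith only [hbb, hvw, hζb, hzs0, hzs2]) hs0 (by rw [hs]; linarith only [hbb, hrw, hζb]) (by rw [hs, hs₁]; linarith only)
    hs1s' hs'pi (by linarith only [hbe, hvw, hwQ, hzs0, hs'])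
  obtain ⟨J₂, hJ₂⟩ := exists_nat_gt (2 / e)
  -- the claim
  have hclp : Clp S' (fun J F A => ∃ (B : F.Ω → Prop) (z : F.Ω → Fin 3 → ℝ), Sub B A ∧
      Real.exp (-(5 * δ / 8 * J)) * Pe F.p A ≤ Pe F.p B ∧
      AzF F i₀ ⌊Q * J⌋₊ ⌊s * J⌋₊ ⌊(w : ℝ) * J⌋₊ B z ∧
      ∃ (hB : IsLaw (cond F.p B True)) (h : ⌊(w : ℝ) * J⌋₊ + azJ Q w s J ≤ J) (i₁ : Fin 3)
        (K a P : ℕ), K ≤ K' ∧ (a : ℝ) ≤ x₀ * azJ Q w s J ∧ (1 - x₀) * azJ Q w s J ≤ P ∧
        Ch (azG F i₀ Q w s B z hB h) i₁ ⌊h₂ / 2 * azJ Q w s J⌋₊ B ∧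
        Lab (azG F i₀ Q w s B z hB h) i₁ (azJ Q w s J) K a a P B) := by
    refine Clp.mono (J₂ := max J₁ J₂) ((hfr.and hleaf).and (Clp.of (S := S')
      (Φ := fun J F A => S'.St (ψc / 4) J F A) (by positivity : 0 < ψc / 4) 0
      fun J _ F A hA => hA)) ?_
    rintro J hJ F A ⟨⟨k1, k2⟩, hSt⟩
    have hJ1 : J₁ ≤ J := (le_max_left _ _).trans hJ
    have hJ2 : 2 / e < J :=
      hJ₂.trans_le (by exact_mod_cast (le_max_right _ _).trans hJ)
    have q1 : 0 < 2 / e := by positivity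
    have hJ0 : (0 : ℝ) < J := by linarith only [hJ2, q1]
    have hp := F.isLaw
    have hPe := Pe_nonneg hp A
    obtain ⟨A₂, z, hA₂, hPA₂, hz⟩ := k1 A (fun _ h => h) (by
      have : Real.exp (-(ψf * J)) ≤ 1 := by
        rw [Real.exp_le_one_iff]
        have : 0 ≤ ψf * (J : ℝ) := by positivity
        linarith only [this]
      calc _ ≤ 1 * Pe F.p A := mul_le_mul_of_nonneg_right this hPe
        _ = _ := one_mul _)
    obtain ⟨B, z', hB, hPB, hz', hlaw, h', i₁, K, a', P, hi₁, hK, r1, r2, hCh, hLab⟩ :=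
      k2 A₂ hA₂ (le_trans (mul_le_mul_of_nonneg_right (Real.exp_le_exp.2 (by
        have := mul_le_mul_of_nonneg_right hκf2 hJ0.le
        linarith only [this])) hPe) hPA₂)
    have hBA : Sub B A := fun ω hω => hA₂ ω (hB ω hω)
    -- the events are large
    have hStA₂ : S'.St (ψc / 4 + κf) J F A₂ := S'.res hκf0.le hSt hA₂ hPA₂
    have hStB : S'.St ψc J F B := by
      have h1 := S'.res hδ'0.le hStA₂ hB hPB
      exact S'.mono (by linarith only [hδ'0, hδ'2, hκf1]) h1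
    obtain ⟨hadd', hJv⟩ := azJ_add (w := (v : ℝ)) (s := s') he hvr.le (by
      rw [max_eq_left hs'0.le]
      linarith only [hbe, hvw, hwQ, hzs0, hs'] : (v : ℝ) + max s' 0 + e ≤ Q) (J := J) (by linarith only [hJ2])
    obtain ⟨hadd, hJw⟩ := azJ_add (w := (w : ℝ)) (s := s) he hwr.le (by
      rw [max_eq_left hs0.le]
      linarith only [hbe, hwQ, hζb, hrotpi, hs, hzs0, hzs2] : (w : ℝ) + max s 0 + e ≤ Q) (J := J) (by linarith only [hJ2])
    have hh : ⌊(w : ℝ) * (J : ℝ)⌋₊ + azJ Q w s J ≤ J := by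
      have := floor_le_J hQ1 J
      omega
    have hAzv : 0 ≤ (azJ Q v s' J : ℝ) := Nat.cast_nonneg _
    have haJ : a' ≤ azJ Q v s' J := by
      have h1 : (a' : ℝ) ≤ azJ Q v s' J := r1.trans (mul_le_of_le_one_left hAzv hx1)
      exact_mod_cast h1
    have hLab₁ : Lab (azG F i₀ Q v s' B z' hlaw h') i₁ (azJ Q v s' J) K₁ a' a'
        (min P (azJ Q v s' J)) B :=
      Lab.mono (F := azG F i₀ Q v s' B z' hlaw h') le_rfl hK le_rfl le_rfl haJ
        (min_le_left _ _) hLab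
    have hPmin : (1 - x) * (azJ Q v s' J : ℝ) ≤ (min P (azJ Q v s' J) : ℕ) := by
      rw [Nat.cast_min]
      refine le_min r2 ?_
      have : (1 - x) * (azJ Q v s' J : ℝ) ≤ 1 * azJ Q v s' J :=
        mul_le_mul_of_nonneg_right (by linarith only [hx0]) hAzv
      linarith only [r1]
    obtain ⟨B', hB', hPB', hCh', a'', P', ha', hP', hLab'⟩ := hcb2 J hJ1 F B hStB z z'
      (hz.sub hB) hz' hh h' i₁ a' (min P (azJ Q v s' J)) hi₁ r1 hPmin (min_le_right _ _) hCh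
      hLab₁
    have hB'A : Sub B' A := fun ω hω => hBA ω (hB' ω hω)
    have hStB' : S'.St (ψc + δ / 4) J F B' := S'.res (by positivity) hStB hB' hPB'
    have hPB'0 : 0 < Pe F.p B' := lt_of_lt_of_le (Real.exp_pos _) (H.st _ _ _ _ hStB').2.2.2
    have hAzw : 0 ≤ (azJ Q w s J : ℝ) := Nat.cast_nonneg _
    refine ⟨B', z, hB'A, ?_, (hz.sub fun ω hω => hB ω (hB' ω hω)).coarse
      (Nat.floor_le_floor (mul_le_mul_of_nonneg_right hss₁.le hJ0.le)), isLaw_cond hp hPB'0, hh,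
      i₁, K', a'', P', le_rfl, ?_, ?_, hCh', hLab'⟩
    · -- cost
      have e1 : Real.exp (-(5 * δ / 8 * J)) ≤ Real.exp (-(δ / 4 * J)) *
          (Real.exp (-(δ' * J)) * Real.exp (-(κf * J))) := by
        rw [← Real.exp_add, ← Real.exp_add]
        refine Real.exp_le_exp.2 ?_
        have h1 : (δ / 4 + δ' + κf) * (J : ℝ) ≤ 5 * δ / 8 * J :=
          mul_le_mul_of_nonneg_right (by linarith only [hδ'0, hδ'1, hκf1]) hJ0.le
        linarith only [h1]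
      calc Real.exp (-(5 * δ / 8 * J)) * Pe F.p A ≤ Real.exp (-(δ / 4 * J)) *
          (Real.exp (-(δ' * J)) * Real.exp (-(κf * J))) * Pe F.p A :=
            mul_le_mul_of_nonneg_right e1 hPe
        _ = Real.exp (-(δ / 4 * J)) * (Real.exp (-(δ' * J)) *
            (Real.exp (-(κf * J)) * Pe F.p A)) := by ring
        _ ≤ Real.exp (-(δ / 4 * J)) * (Real.exp (-(δ' * J)) * Pe F.p A₂) := by gcongr
        _ ≤ Real.exp (-(δ / 4 * J)) * Pe F.p B := by gcongr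
        _ ≤ _ := hPB'
    · refine ha'.trans (mul_le_mul_of_nonneg_right (by linarith only [hxx]) hAzw)
    · refine le_trans (mul_le_mul_of_nonneg_right (by linarith only [hxx]) hAzw) hP'
  obtain ⟨τ, hτ, J₃, hwin⟩ := hclp.win (δ / 4) (by positivity)
  refine ⟨τ, hτ, J₃, fun J hJ F A₀ hA₀ => ?_⟩
  obtain ⟨A, hA, hPA, B, z, k1, k2, k3, k4⟩ := hwin J hJ F A₀ hA₀
  refine ⟨B, z, fun ω hω => hA ω (k1 ω hω), ?_, k3, k4⟩
  have hJ0 : (0 : ℝ) ≤ J := Nat.cast_nonneg J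
  calc Real.exp (-(δ * J)) * Pe F.p A₀ ≤ Real.exp (-(5 * δ / 8 * J)) *
      Real.exp (-(δ / 4 * J)) * Pe F.p A₀ := by
        refine mul_le_mul_of_nonneg_right ?_ (Pe_nonneg F.isLaw A₀)
        rw [← Real.exp_add]
        refine Real.exp_le_exp.2 ?_
        have h1 : (5 * δ / 8 + δ / 4) * (J : ℝ) ≤ δ * J :=
          mul_le_mul_of_nonneg_right (by linarith only [hδ'0, hδ'1]) hJ0
        linarith only [h1]
    _ = Real.exp (-(5 * δ / 8 * J)) * (Real.exp (-(δ / 4 * J)) * Pe F.p A₀) := by ring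
    _ ≤ Real.exp (-(5 * δ / 8 * J)) * Pe F.p A := by gcongr
    _ ≤ _ := k2

/-- **CROSS.** -/
theorem cross_thm : CROSSStmt := cross_of xl_thm

end Pool.ZCL
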