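import Pool.Agent.H84.S6.Ciq

/-!
# Implicit labels in a class

`ci_of_sec`: implicit labels in the sections of the A-zooms of a class give the implicit labels of
the top (the block of `CI`), on events of arbitrarily small cost.
-/

set_option autoImplicit false

namespace Pool.ZCL

open Finset Real MvPolynomial
open Pool.Agent.H49.Ent Pool.Agent.H32.Dense Pool.STK Pool.KA Pool.KSAT Pool.K2S Pool.PB Pool.KS6
open Pool.S6C

/-- The precision of the label of the step at the top row. -/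
theorem prec_le {N E Cs d J' J : ℕ} {x p e : ℝ} (hN : N = E * d) (hd : 0 < d) (hE0 : 0 < E)
    (hE : 2 * (Cs : ℝ) ≤ e * E) (he : 0 < e) (hp : p + e ≤ x) (hJ' : x * J - 2 ≤ J')
    (hJJ : J' ≤ J) (hJ : (N : ℝ) + 3 ≤ e / 2 * J) : ⌊p * J⌋₊ ≤ (N - Cs * d) * (J' / N) := by
  have hJ0 : (0 : ℝ) ≤ J := Nat.cast_nonneg J
  have hN0r : (0 : ℝ) ≤ N := Nat.cast_nonneg N
  have hd0 : (0 : ℝ) < d := by exact_mod_cast hd
  have hJJr : (J' : ℝ) ≤ J := by exact_mod_cast hJJ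
  have hJ'0 : (0 : ℝ) ≤ J' := Nat.cast_nonneg J'
  have hNr : (N : ℝ) = E * d := by rw [hN]; push_cast; ring
  rcases le_or_gt p 0 with hp0 | hp0
  · rw [Nat.floor_of_nonpos (mul_nonpos_of_nonpos_of_nonneg hp0 hJ0)]
    exact Nat.zero_le _
  have key : p * J ≤ ((N - Cs * d : ℕ) : ℝ) * ((J' / N : ℕ) : ℝ) := by
    have hE0r : (0 : ℝ) < E := by exact_mod_cast hE0
    have hNpos : (0 : ℝ) < N := by rw [hNr]; positivity
    have hq : (J' : ℝ) < N * ((J' / N : ℕ) : ℝ) + N := by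
      have hNn : 0 < N := by exact_mod_cast hNpos
      have h1 : J' < N * (J' / N) + N := by
        have := Nat.div_add_mod J' N
        have := Nat.mod_lt J' hNn
        omega
      exact_mod_cast h1
    have h1 : (N : ℝ) - Cs * d ≤ ((N - Cs * d : ℕ) : ℝ) := by
      have : ((N : ℕ) : ℝ) ≤ ((N - Cs * d + Cs * d : ℕ) : ℝ) := by
        exact_mod_cast le_tsub_add
      push_cast at this
      linarith only [this]
    have h2 : 2 * ((Cs : ℝ) * d) ≤ e * N := by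
      rw [hNr]
      calc 2 * ((Cs : ℝ) * d) = 2 * Cs * d := by ring
        _ ≤ e * E * d := mul_le_mul_of_nonneg_right hE hd0.le
        _ = _ := by ring
    obtain ⟨q, hqe⟩ : ∃ q : ℝ, q = ((J' / N : ℕ) : ℝ) := ⟨_, rfl⟩
    have hq0 : 0 ≤ q := by rw [hqe]; exact Nat.cast_nonneg _
    rw [← hqe] at hq ⊢
    have hqJ : N * q ≤ J' := by
      rw [hqe]
      exact_mod_cast Nat.mul_div_le J' N
    have h3 : ((N : ℝ) - Cs * d) * q ≤ ((N - Cs * d : ℕ) : ℝ) * q :=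
      mul_le_mul_of_nonneg_right h1 hq0
    refine le_trans ?_ h3
    -- `N q ≥ J' - N`, `Cs d q ≤ e N q / 2 ≤ e J' / 2`
    have h4 : (Cs : ℝ) * d * q ≤ e / 2 * J := by
      calc (Cs : ℝ) * d * q ≤ e / 2 * N * q := mul_le_mul_of_nonneg_right (by linarith only [h2]) hq0
        _ = e / 2 * (N * q) := by ring
        _ ≤ e / 2 * J := mul_le_mul_of_nonneg_left (hqJ.trans hJJr) (by positivity)
    have h5 : (p + e) * J ≤ x * J := mul_le_mul_of_nonneg_right hp hJ0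
    nlinarith only [hJ', hJ, hq, h4, h5]
  exact Nat.floor_le_of_le (by exact_mod_cast key)

/-- The output of the step at the top row in the sections of the A-zoom. -/
def SecG {J : ℕ} (F : Fam 3 J) (i₀ : Fin 3) (Q w s : ℝ) (D : ℕ) (P : ℕ → ℕ) (δ : ℝ)
    (A : F.Ω → Prop) : Prop :=
  ∃ (A₂ : F.Ω → Prop) (z : F.Ω → Fin 3 → ℝ), Sub A₂ A ∧
    Real.exp (-(δ * J)) * Pe F.p A ≤ Pe F.p A₂ ∧
    AzF F i₀ ⌊Q * J⌋₊ ⌊s * J⌋₊ ⌊w * J⌋₊ A₂ z ∧
    ∃ (hA₂ : IsLaw (cond F.p A₂ True)) (h : ⌊w * J⌋₊ + azJ Q w s J ≤ J) (i₁ : Fin 3) (V : Type)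
      (v : F.Ω → V) (B : F.Ω → Prop),
      Sel ((F.res A₂ True hA₂).zm ⌊w * J⌋₊ (azJ Q w s J) h (Box.plkC ⌊s * J⌋₊ i₀) z) v B ∧
      Real.exp (-(δ * azJ Q w s J)) ≤ Pe (cond F.p A₂ True) B ∧
      ∀ ω, 0 < cond F.p A₂ True ω → B ω → ∀ hl : IsLaw (cond (cond F.p A₂ True) v (v ω)),
        ∃ B' : F.Ω → Prop, Sub B' (fun ω' => B ω' ∧ v ω' = v ω) ∧
          Real.exp (-(δ * azJ Q w s J)) *
            Pe (cond (cond F.p A₂ True) v (v ω)) (fun ω' => B ω' ∧ v ω' = v ω) ≤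
            Pe (cond (cond F.p A₂ True) v (v ω)) B' ∧
          ClG (((F.res A₂ True hA₂).zm ⌊w * J⌋₊ (azJ Q w s J) h
            (Box.plkC ⌊s * J⌋₊ i₀) z).res v (v ω) hl) i₁ (azJ Q w s J) D 0 (P (azJ Q w s J)) B'

/-- **From the sections of the A-zooms to `CI`.** -/
theorem ci_of_sec {S : PCl 3} {i₀ : Fin 3} {Q w s p e₀ x e : ℝ} (he₀ : 0 < e₀) (hw0 : 0 ≤ w)
    (hws : w + max s 0 + e₀ ≤ Q) {N E Cs d D : ℕ} (hN : N = E * d) (hd : 0 < d)
    (hE0 : 0 < E) (hE : 2 * (Cs : ℝ) ≤ e * E) (he : 0 < e) (hp : p + e ≤ x)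
    (hx : x ≤ Q - w - max s 0)
    (H : ∀ δ : ℝ, 0 < δ → Clp S (fun _ F A =>
      SecG F i₀ Q w s D (fun J' => (N - Cs * d) * (J' / N)) δ A)) {δ : ℝ} (hδ : 0 < δ) :
    Clp S (fun J F A => ∃ B : F.Ω → Prop, Sub B A ∧
      Real.exp (-(δ * J)) * Pe F.p A ≤ Pe F.p B ∧
      CIQ F ⌊Q * J⌋₊ i₀ ⌊w * J⌋₊ ⌊s * J⌋₊ (⌊Q * J⌋₊ - ⌊w * J⌋₊ - ⌊s * J⌋₊) D ⌊p * J⌋₊ B) := by
  classical
  obtain ⟨C, hC⟩ : ∃ C : ℝ, C = ((2 * ((5 + 6 + 7 : ℕ) : ℝ) + 1) ^ 3) ^ 3 := ⟨_, rfl⟩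
  have hC1 : 1 ≤ C := by
    rw [hC]
    exact one_le_pow₀ (one_le_pow₀ (by norm_num))
  have hC0 : 0 < C := by linarith only [hC1]
  obtain ⟨Je, hJe⟩ := Pool.S6K.exp_small (κ := δ / 8) (by positivity) hC1
  obtain ⟨Jx, hJx⟩ := exists_nat_gt (2 / e₀ + 2 * (N + 3) / e + 256 / δ ^ 2 + 1)
  refine Clp.mono (J₂ := max Je Jx) (H (δ / 8) (by positivity)) ?_
  intro J hJ F A hSec
  have hJe' : Je ≤ J := (le_max_left _ _).trans hJ
  have hJx' : 2 / e₀ + 2 * (N + 3) / e + 256 / δ ^ 2 + 1 < J :=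
    hJx.trans_le (by exact_mod_cast (le_max_right _ _).trans hJ)
  have q1 : 0 < 2 / e₀ := by positivity
  have q2 : 0 ≤ 2 * ((N : ℝ) + 3) / e := by positivity
  have q3 : 0 < 256 / δ ^ 2 := by positivity
  have hJr : (1 : ℝ) ≤ J := by linarith only [hJx', q1, q2, q3]
  have hJ0 : (0 : ℝ) < J := by linarith only [hJx', q1, q2, q3]
  obtain ⟨A₂, z, hA₂, hPA₂, hz, hlaw, h, i₁, V, v, B, hSel, hPB, hsec⟩ := hSec
  obtain ⟨hadd, -⟩ := azJ_add he₀ hw0 hws (J := J) (by linarith only [hJx', q2, q3])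
  have hJ'J : azJ Q w s J ≤ J := by omega
  have hJ'Jr : (azJ Q w s J : ℝ) ≤ J := by exact_mod_cast hJ'J
  have hB0 : 0 < Pe (cond F.p A₂ True) B := lt_of_lt_of_le (Real.exp_pos _) hPB
  obtain ⟨B₁, hB₁, hPB₁, hCI⟩ := sec_ciq F h (by omega) hz hlaw hSel hB0 (Real.exp_pos _) hsec
  refine ⟨B₁, fun ω hω => hA₂ ω (hB₁ ω hω), ?_, ?_⟩
  · rw [← hC] at hPB₁
    have hp := F.isLaw
    have hPe := Pe_nonneg hp A
    have hPe₁ := Pe_nonneg hp B₁
    -- the constants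
    have h1 : Real.exp (-(δ / 8 * J)) * C ≤ 1 := by
      have := hJe J hJe'
      rw [le_div_iff₀ hC0] at this
      exact this
    have h2 : ((azJ Q w s J + 1 : ℕ) : ℝ) ≤ Real.exp (δ / 8 * J) := by
      have h3 : (δ / 8 * J) ^ 2 / 2 ≤ Real.exp (δ / 8 * J) := by
        have h4 := Real.quadratic_le_exp_of_nonneg (x := δ / 8 * J) (by positivity)
        have h5 : 0 ≤ δ / 8 * (J : ℝ) := by positivity
        linarith only [h4, h5]
      have h6 : 256 ≤ δ ^ 2 * J := by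
        have : 256 / δ ^ 2 ≤ J := by linarith only [hJx', q1, q2]
        rw [div_le_iff₀ (by positivity)] at this
        linarith only [this]
      have h7 : 2 * (J : ℝ) ≤ (δ / 8 * J) ^ 2 / 2 := by
        have e1 : (δ / 8 * (J : ℝ)) ^ 2 / 2 = (δ ^ 2 * J) * J / 128 := by ring
        rw [e1]
        nlinarith only [h6]
      push_cast
      linarith only [hJx', q1, q2, q3, hJ'Jr, h3, h7]
    have h3 : Real.exp (-(δ / 8 * J)) ≤ Real.exp (-(δ / 8 * azJ Q w s J)) := by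
      refine Real.exp_le_exp.2 ?_
      have := mul_le_mul_of_nonneg_left hJ'Jr (by positivity : 0 ≤ δ / 8)
      linarith only [this]
    obtain ⟨t, ht⟩ : ∃ t, t = Real.exp (-(δ / 8 * J)) := ⟨_, rfl⟩
    have ht0 : 0 < t := by rw [ht]; exact Real.exp_pos _
    have ht1 : t * Real.exp (δ / 8 * J) = 1 := by
      rw [ht, ← Real.exp_add]
      have : -(δ / 8 * (J : ℝ)) + δ / 8 * J = 0 := by ring
      rw [this, Real.exp_zero]
    have hδt : Real.exp (-(δ * J)) = t ^ 8 := by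
      rw [ht, ← Real.exp_nat_mul]
      congr 1
      push_cast
      ring
    rw [← ht] at h1 h3 hPA₂
    have h4 : t * t * (t * Pe F.p A) ≤ (azJ Q w s J + 1 : ℕ) * C * Pe F.p B₁ := by
      refine le_trans ?_ hPB₁
      have h5 : t * t ≤ Real.exp (-(δ / 8 * azJ Q w s J)) * Pe (cond F.p A₂ True) B :=
        mul_le_mul h3 (h3.trans hPB) ht0.le (Real.exp_pos _).le
      exact mul_le_mul h5 hPA₂ (mul_nonneg ht0.le hPe) (mul_nonneg (Real.exp_pos _).le hB0.le)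
    have h5 : (azJ Q w s J + 1 : ℕ) * C * Pe F.p B₁ * (t * t) ≤ Pe F.p B₁ := by
      have h6 : ((azJ Q w s J + 1 : ℕ) : ℝ) * t ≤ 1 := by
        rw [← ht1, mul_comm t]
        exact mul_le_mul_of_nonneg_right h2 ht0.le
      calc (azJ Q w s J + 1 : ℕ) * C * Pe F.p B₁ * (t * t) =
            (((azJ Q w s J + 1 : ℕ) : ℝ) * t) * (t * C) * Pe F.p B₁ := by ring
        _ ≤ 1 * 1 * Pe F.p B₁ := by
            refine mul_le_mul_of_nonneg_right (mul_le_mul h6 h1 ?_ zero_le_one) hPe₁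
            positivity
        _ = _ := by ring
    have ht8 : t ≤ 1 := by
      rw [ht, Real.exp_le_one_iff]
      have : 0 ≤ δ / 8 * (J : ℝ) := by positivity
      linarith only [this]
    rw [hδt]
    calc t ^ 8 * Pe F.p A ≤ t ^ 5 * Pe F.p A :=
          mul_le_mul_of_nonneg_right (pow_le_pow_of_le_one ht0.le ht8 (by norm_num)) hPe
      _ = t * t * (t * Pe F.p A) * (t * t) := by ring
      _ ≤ (azJ Q w s J + 1 : ℕ) * C * Pe F.p B₁ * (t * t) :=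
          mul_le_mul_of_nonneg_right h4 (by positivity)
      _ ≤ _ := h5
  · obtain ⟨h', g, n, k1, k2, k3, k4, i₂, k5⟩ := hCI
    refine ⟨h', g, n, k1, k2, k3, k4, i₂, k5.mono le_rfl le_rfl ?_⟩
    refine prec_le hN hd hE0 hE he hp (J := J) ?_ hJ'J ?_
    · -- the resolution
      have e1 : ((azJ Q w s J : ℕ) : ℝ) = ⌊Q * (J : ℝ)⌋₊ - ⌊w * (J : ℝ)⌋₊ - ⌊s * (J : ℝ)⌋₊ := by
        have : ((⌊w * (J : ℝ)⌋₊ + azJ Q w s J + ⌊s * (J : ℝ)⌋₊ : ℕ) : ℝ) = ⌊Q * (J : ℝ)⌋₊ := by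
          exact_mod_cast hadd
        push_cast at this
        linarith only [this]
      have h1 : (⌊w * (J : ℝ)⌋₊ : ℝ) ≤ w * J := Nat.floor_le (by positivity)
      have h2 : (⌊s * (J : ℝ)⌋₊ : ℝ) ≤ max s 0 * J := by
        have h3 : ⌊s * (J : ℝ)⌋₊ ≤ ⌊max s 0 * (J : ℝ)⌋₊ :=
          Nat.floor_le_floor (mul_le_mul_of_nonneg_right (le_max_left _ _) hJ0.le)
        have h4 : 0 ≤ max s 0 := le_max_right _ _
        exact (by exact_mod_cast h3 : (⌊s * (J : ℝ)⌋₊ : ℝ) ≤ ⌊max s 0 * (J : ℝ)⌋₊).trans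
          (Nat.floor_le (by positivity))
      have h3 : Q * J < ⌊Q * (J : ℝ)⌋₊ + 1 := Nat.lt_floor_add_one _
      have h4 : x * J ≤ (Q - w - max s 0) * J := mul_le_mul_of_nonneg_right hx hJ0.le
      rw [e1]
      nlinarith only [h1, h2, h3, h4]
    · have h1 : 2 * ((N : ℝ) + 3) / e ≤ J := by linarith only [hJx', q1, q3]
      rw [div_le_iff₀ he] at h1
      linarith only [h1]

end Pool.ZCL
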