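import Pool.Agent.H84.S6.Imp
import Pool.Agent.H35.ZCL.Acls

/-!
# Implicit labels in the boxes of the frames

The frames of the A-zoom have the coordinate `0` at `i₀`, the frames of `CIQ` the coordinate `1`;
the coordinates of the boxes are the same.
-/

set_option autoImplicit false

namespace Pool.ZCL

open Finset Real MvPolynomial
open Pool.Agent.H49.Ent Pool.Agent.H32.Dense Pool.STK Pool.KA Pool.KSAT Pool.K2S Pool.PB Pool.KS6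
open Pool.S6C

variable {m J : ℕ} {κ : Type}

/-- The position in the zoom depends on the coordinates only. -/
theorem zm_x_congr (F : Fam m J) {w J' : ℕ} (h : w + J' ≤ J) (C : Crd m κ) {z g : F.Ω → κ}
    {ω : F.Ω} (hL : C.L (z ω) = C.L (g ω)) :
    (F.zm w J' h C z).u ω = (F.zm w J' h C g).u ω ∧ (F.zm w J' h C z).d ω = (F.zm w J' h C g).d ω ∧
    (F.zm w J' h C z).x ω = (F.zm w J' h C g).x ω := by
  have h1 : (F.zm w J' h C z).u ω = (F.zm w J' h C g).u ω := by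
    funext i
    change (⌊(2 : ℝ) ^ J' * Int.fract (2 ^ w * C.L (z ω) (F.x1 w ω) i)⌋ : ℝ) / 2 ^ J' =
      (⌊(2 : ℝ) ^ J' * Int.fract (2 ^ w * C.L (g ω) (F.x1 w ω) i)⌋ : ℝ) / 2 ^ J'
    rw [hL]
  have h2 : (F.zm w J' h C z).d ω = (F.zm w J' h C g).d ω := by
    funext i
    change (⌊(2 : ℝ) ^ J' * Int.fract (C.L (z ω) (F.d ω) i)⌋ : ℝ) / 2 ^ J' =
      (⌊(2 : ℝ) ^ J' * Int.fract (C.L (g ω) (F.d ω) i)⌋ : ℝ) / 2 ^ J'
    rw [hL]
  refine ⟨h1, h2, ?_⟩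
  funext i
  change (F.zm w J' h C z).u ω i + (F.zm w J' h C z).t ω * (F.zm w J' h C z).d ω i =
    (F.zm w J' h C g).u ω i + (F.zm w J' h C g).t ω * (F.zm w J' h C g).d ω i
  rw [h1, h2]
  rfl

/-- The side information of the zoom, relabelled. -/
def relZ {ζ : Type} (σ : κ → κ) (y : ((ℕ × κ) × ((Fin m → ℤ) × (Fin m → ℤ))) × ζ) :
    ((ℕ × κ) × ((Fin m → ℤ) × (Fin m → ℤ))) × ζ :=
  (((y.1.1.1, σ y.1.1.2), y.1.2), y.2)

theorem zm_Z_congr (F : Fam m J) {w J' : ℕ} (h : w + J' ≤ J) (C : Crd m κ) {z g : F.Ω → κ}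
    {ω : F.Ω} (hL : C.L (z ω) = C.L (g ω)) {σ : κ → κ} (hσ : z ω = σ (g ω)) :
    (F.zm w J' h C z).Z ω = relZ σ ((F.zm w J' h C g).Z ω) := by
  change (((F.T1 w ω, z ω), (fl w (C.L (z ω) (F.x1 w ω)), fl 0 (C.L (z ω) (F.d ω)))), F.Z ω) =
    (((F.T1 w ω, σ (g ω)), (fl w (C.L (g ω) (F.x1 w ω)), fl 0 (C.L (g ω) (F.d ω)))), F.Z ω)
  rw [hL, hσ]

theorem zm_ptr_congr (F : Fam m J) {w J' : ℕ} (h : w + J' ≤ J) (C : Crd m κ) {z g : F.Ω → κ}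
    {ω : F.Ω} (hL : C.L (z ω) = C.L (g ω)) {σ : κ → κ} (hσ : z ω = σ (g ω)) (r : ℕ) :
    ptr (F.zm w J' h C z) r ω = ((ptr (F.zm w J' h C g) r ω).1,
      ((ptr (F.zm w J' h C g) r ω).2.1, relZ σ (ptr (F.zm w J' h C g) r ω).2.2)) := by
  refine Prod.ext ?_ (Prod.ext rfl (zm_Z_congr F h C hL hσ))
  change fl r ((F.zm w J' h C z).x ω) = fl r ((F.zm w J' h C g).x ω)
  rw [(zm_x_congr F h C hL).2.2]

theorem zm_slam_congr (F : Fam m J) {w J' : ℕ} (h : w + J' ≤ J) (C : Crd m κ) {z g : F.Ω → κ}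
    {ω : F.Ω} (hL : C.L (z ω) = C.L (g ω)) {σ : κ → κ} (hσ : z ω = σ (g ω)) (w' : ℕ) :
    slam (F.zm w J' h C z) w' ω = ((slam (F.zm w J' h C g) w' ω).1,
      (relZ σ (slam (F.zm w J' h C g) w' ω).2.1, (slam (F.zm w J' h C g) w' ω).2.2)) := by
  obtain ⟨h1, h2, -⟩ := zm_x_congr F h C hL
  exact Prod.ext (Prod.ext h1 h2) (Prod.ext (zm_Z_congr F h C hL hσ) rfl)

/-- **Implicit labels of the zoom, relabelled.** -/
theorem imp_rel (F : Fam m J) {w J' : ℕ} (h : w + J' ≤ J) (C : Crd m κ) {z g : F.Ω → κ}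
    {A : F.Ω → Prop} (hL : ∀ ω, A ω → C.L (z ω) = C.L (g ω)) {σ : κ → κ}
    (hσ : ∀ ω, A ω → z ω = σ (g ω)) {x : F.Ω → Option (Fin m) → ℝ} {r D w' P : ℕ}
    (hI : Imp (F.zm w J' h C z) x r D w' P A) : Imp (F.zm w J' h C g) x r D w' P A := by
  obtain ⟨q, q', h1, h2, h3⟩ := hI
  refine ⟨fun y => q (y.1, (y.2.1, relZ σ y.2.2)), fun s => q' (s.1, (relZ σ s.2.1, s.2.2)),
    fun y => h1 _, fun s => h2 _, fun ω hω => ?_⟩
  have h4 := h3 ω hω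
  rw [zm_ptr_congr F h C (hL ω hω) (hσ ω hω), zm_slam_congr F h C (hL ω hω) (hσ ω hω)] at h4
  exact h4

/-- The point of the zoom, relabelled. -/
theorem pt_rel (F : Fam m J) {w J' r : ℕ} (h : w + J' ≤ J) (C : Crd m κ) {z g : F.Ω → κ}
    {A : F.Ω → Prop} (hL : ∀ ω, A ω → C.L (z ω) = C.L (g ω)) {σ : κ → κ}
    (hσ : ∀ ω, A ω → g ω = σ (z ω))
    (hv : ∃ φ : (Fin m → ℤ) × (ℕ × F.ζ) → (Fin m → ℤ) × (ℕ × (F.zm w J' h C z).ζ),
      ∀ ω, A ω → Fam.pt (F.zm w J' h C z) ω = φ (ptr F r ω)) :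
    ∃ φ : (Fin m → ℤ) × (ℕ × F.ζ) → (Fin m → ℤ) × (ℕ × (F.zm w J' h C g).ζ),
      ∀ ω, A ω → Fam.pt (F.zm w J' h C g) ω = φ (ptr F r ω) := by
  obtain ⟨φ, hφ⟩ := hv
  refine ⟨fun y => ((φ y).1, ((φ y).2.1, relZ σ (φ y).2.2)), fun ω hω => ?_⟩
  have h1 := zm_ptr_congr F h C (hL ω hω).symm (hσ ω hω) J'
  rw [ptr_J, ptr_J] at h1
  rw [h1, hφ ω hω]
  rfl

/-- The frames with the coordinate `1` at `i₀`. -/
def fr1 (i₀ : Fin m) (v : Fin m → ℝ) (j : Fin m) : ℝ := if j = i₀ then 1 else v j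

/-- The frames with the coordinate `0` at `i₀`. -/
def fr0 (i₀ : Fin m) (v : Fin m → ℝ) (j : Fin m) : ℝ := if j = i₀ then 0 else v j

theorem pco_fr1 (lam : ℕ) (i₀ : Fin m) (v : Fin m → ℝ) :
    (Box.plkC lam i₀).L v = (Box.plkC lam i₀).L (fr1 i₀ v) := by
  funext x i
  change pco lam i₀ v x i = pco lam i₀ (fr1 i₀ v) x i
  unfold pco fr1
  by_cases hi : i = i₀
  · rw [if_pos hi, if_pos hi]
  · rw [if_neg hi, if_neg hi, if_neg hi]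

theorem fr0_fr1 {i₀ : Fin m} {v : Fin m → ℝ} (h : v i₀ = 0) : v = fr0 i₀ (fr1 i₀ v) := by
  funext j
  unfold fr0 fr1
  by_cases hj : j = i₀
  · rw [if_pos hj, hj, h]
  · rw [if_neg hj, if_neg hj]

/-- **Implicit labels in the boxes of the frames of the A-zoom.** The space-time points `X` are
points of the zoom. -/
theorem ciq_frames {J : ℕ} (F : Fam 3 J) {i₀ : Fin 3} {r l w J' : ℕ} (h : w + J' ≤ J)
    {A : F.Ω → Prop} {z : F.Ω → Fin 3 → ℝ} (hz : AzF F i₀ r l w A z)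
    (hv : ∃ φ : (Fin 3 → ℤ) × (ℕ × F.ζ) →
        (Fin 3 → ℤ) × (ℕ × (F.zm w J' h (Box.plkC l i₀) z).ζ),
      ∀ ω, A ω → Fam.pt (F.zm w J' h (Box.plkC l i₀) z) ω = φ (ptr F r ω)) :
    ∃ g n : F.Ω → Fin 3 → ℝ, (∀ ω, g ω = fr1 i₀ (z ω)) ∧
      (∀ ω, A ω → ∀ j, |g ω j| ≤ 4 ∧ |F.d ω j - n ω j - g ω j * F.d ω i₀| ≤ 6 / 2 ^ l) ∧
      (∃ φ : (Fin 3 → ℤ) × (ℕ × F.ζ) → (Fin 3 → ℝ) × (Fin 3 → ℝ), ∀ ω, A ω →
        (g ω, n ω) = φ (ptq F r ω)) ∧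
      (∃ ψ : ((Fin 3 → ℝ) × (Fin 3 → ℝ)) × F.ζ × ℕ → Fin 3 → ℝ, ∀ ω, g ω = ψ (slam F w ω)) ∧
      ∃ φ : (Fin 3 → ℤ) × (ℕ × F.ζ) →
        (Fin 3 → ℤ) × (ℕ × (Fam.zm F w J' h (Box.plkC l i₀) g).ζ), ∀ ω, A ω →
        Fam.pt (Fam.zm F w J' h (Box.plkC l i₀) g) ω = φ (ptq F r ω) := by
  classical
  obtain ⟨γ, hγ⟩ := hz.vis
  obtain ⟨n, hn⟩ := hz.str
  refine ⟨fun ω => fr1 i₀ (z ω), fun ω j => if j = i₀ then 0 else n (ptr F r ω) j,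
    fun _ => rfl, fun ω hω j => ?_, ⟨fun y => (fr1 i₀ (γ y), fun j => if j = i₀ then 0 else n y j),
    fun ω hω => ?_⟩, ?_, ?_⟩
  · have p0 : (0 : ℝ) < 2 ^ l := by positivity
    unfold fr1
    simp only
    by_cases hj : j = i₀
    · rw [if_pos hj, if_pos hj, hj]
      refine ⟨by rw [abs_one]; norm_num, ?_⟩
      have e1 : F.d ω i₀ - 0 - 1 * F.d ω i₀ = 0 := by ring
      rw [e1, abs_zero]
      positivity
    · rw [if_neg hj, if_neg hj]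
      refine ⟨hz.bd ω hω j, ?_⟩
      have h1 := hn ω hω j hj
      have e1 : F.d ω j - n (ptr F r ω) j - z ω j * F.d ω i₀ =
        F.d ω j - z ω j * F.d ω i₀ - n (ptr F r ω) j := by ring
      rw [e1]
      refine h1.trans ?_
      exact div_le_div_of_nonneg_right (by norm_num) p0.le
  · have h1 := hγ ω hω
    have e1 : ptq F r ω = ptr F r ω := rfl
    simp only
    rw [e1, ← h1]
  · refine ⟨fun s => if hs : ∃ ω, slam F w ω = s then fr1 i₀ (z hs.choose) else 0, fun ω => ?_⟩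
    have hs : ∃ ω', slam F w ω' = slam F w ω := ⟨ω, rfl⟩
    simp only
    rw [dif_pos hs, hz.win _ _ hs.choose_spec]
  · exact pt_rel F h (Box.plkC l i₀) (A := A) (fun ω _ => pco_fr1 l i₀ (z ω)) (σ := fr1 i₀)
      (fun _ _ => rfl) hv

/-- **Implicit labels in the boxes of the frames.** -/
theorem ciq_of {J : ℕ} (F : Fam 3 J) {i₀ i₁ : Fin 3} {r l w J' D P : ℕ} (h : w + J' ≤ J)
    {A : F.Ω → Prop} {z : F.Ω → Fin 3 → ℝ} (hz : AzF F i₀ r l w A z)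
    (hv : ∃ φ : (Fin 3 → ℤ) × (ℕ × F.ζ) →
        (Fin 3 → ℤ) × (ℕ × (F.zm w J' h (Box.plkC l i₀) z).ζ),
      ∀ ω, A ω → Fam.pt (F.zm w J' h (Box.plkC l i₀) z) ω = φ (ptr F r ω))
    (hI : ClG (F.zm w J' h (Box.plkC l i₀) z) i₁ J' D 0 P A) :
    CIQ F r i₀ w l J' D P A := by
  classical
  obtain ⟨g, n, hg, h1, h2, h3, h4⟩ := ciq_frames F h hz hv
  refine ⟨h, g, n, h1, h2, h3, h4, i₁, ?_⟩
  have hL : ∀ ω, (Box.plkC l i₀).L (z ω) = (Box.plkC l i₀).L (g ω) := fun ω => by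
    rw [hg ω]
    exact pco_fr1 l i₀ (z ω)
  obtain ⟨P₁, h5, h6, h7⟩ := (clg_iff _ _ _ _ _ _ _).1 hI
  refine (clg_iff _ _ _ _ _ _ _).2 ⟨P₁, h5, h6, ?_⟩
  have h8 := imp_rel F h (Box.plkC l i₀) (z := z) (g := g) (fun ω _ => hL ω) (σ := fr0 i₀)
    (fun ω _ => by
      rw [hg ω]
      exact fr0_fr1 (hz.zer ω)) h7
  have e1 : txg (F.zm w J' h (Box.plkC l i₀) z) i₁ P₁ =
      txg (F.zm w J' h (Box.plkC l i₀) g) i₁ P₁ := by
    funext ω o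
    have hX : (F.zm w J' h (Box.plkC l i₀) z).X P₁ ω =
        (F.zm w J' h (Box.plkC l i₀) g).X P₁ ω := by
      change fl P₁ ((F.zm w J' h (Box.plkC l i₀) z).x ω) =
        fl P₁ ((F.zm w J' h (Box.plkC l i₀) g).x ω)
      rw [(zm_x_congr F h (Box.plkC l i₀) (hL ω)).2.2]
    unfold txg
    rw [hX]
    rfl
  rw [e1] at h8
  exact h8

/-- **Implicit labels of the sections of the A-zoom** are implicit labels in the boxes. -/
theorem sec_ciq {J : ℕ} (F : Fam 3 J) {i₀ i₁ : Fin 3} {r l w J' D P : ℕ} (h : w + J' ≤ J)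
    (hr : w + J' + l ≤ r) {A : F.Ω → Prop} {z : F.Ω → Fin 3 → ℝ} (hz : AzF F i₀ r l w A z)
    (hA : IsLaw (cond F.p A True)) {V : Type} {v : F.Ω → V} {B : F.Ω → Prop}
    (hSel : Sel ((F.res A True hA).zm w J' h (Box.plkC l i₀) z) v B)
    (hB : 0 < Pe (cond F.p A True) B) {e : ℝ} (he : 0 < e)
    (hsec : ∀ ω, 0 < cond F.p A True ω → B ω → ∀ hl : IsLaw (cond (cond F.p A True) v (v ω)),
      ∃ B' : F.Ω → Prop, Sub B' (fun ω' => B ω' ∧ v ω' = v ω) ∧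
      e * Pe (cond (cond F.p A True) v (v ω)) (fun ω' => B ω' ∧ v ω' = v ω) ≤
        Pe (cond (cond F.p A True) v (v ω)) B' ∧
      ClG (((F.res A True hA).zm w J' h (Box.plkC l i₀) z).res v (v ω) hl) i₁ J' D 0 P B') :
    ∃ B' : F.Ω → Prop, Sub B' A ∧
      e * Pe (cond F.p A True) B * Pe F.p A ≤
        (J' + 1 : ℕ) * ((2 * ((5 + 6 + 7 : ℕ) : ℝ) + 1) ^ 3) ^ 3 * Pe F.p B' ∧
      CIQ F r i₀ w l J' D P B' := by
  classical
  have hp := F.isLaw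
  have hA0 : 0 < Pe F.p A := by
    rcases (Pe_nonneg hp A).eq_or_lt with h0 | h0
    · exfalso
      have h1 := hA.sum_one
      have h2 : ∀ ω, cond F.p A True ω = 0 := by
        intro ω
        have e0 : law F.p A True = 0 := by
          have : Pe F.p A = law F.p A True := rfl
          rw [← this]
          exact h0.symm
        unfold Pool.Agent.H49.Ent.cond
        rw [e0]
        simp
      rw [Finset.sum_eq_zero fun ω _ => h2 ω] at h1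
      exact zero_ne_one h1
    · exact h0
  obtain ⟨B₁, hB₁, hP₁, hI⟩ : ∃ B₁ : F.Ω → Prop, Sub B₁ B ∧
      e * Pe (cond F.p A True) B ≤ (J' + 1 : ℕ) * Pe (cond F.p A True) B₁ ∧
      ClG ((F.res A True hA).zm w J' h (Box.plkC l i₀) z) i₁ J' D 0 P B₁ :=
    clg_glue hSel hB he hsec
  -- the event in the family
  obtain ⟨E, hE⟩ : ∃ E : F.Ω → Prop, E = fun ω => A ω ∧ B₁ ω := ⟨_, rfl⟩
  have hEA : Sub E A := fun ω hω => by rw [hE] at hω; exact hω.1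
  have hEB : Sub E B₁ := fun ω hω => by rw [hE] at hω; exact hω.2
  have hPE : Pe (cond F.p A True) B₁ * Pe F.p A = Pe F.p E := by
    rw [Pe_cond, hE]
    field_simp
  obtain ⟨φ₀, hφ₀⟩ := hz.vis
  obtain ⟨B₂, hB₂, hP₂, -, hφ₂⟩ := zm_vis F h hr (C := Box.plkC l i₀) (b := 5) (b' := 6) z E
    (fun ω hω x y hxy i => hz.bound (hEA ω hω) x y hxy i) φ₀ (fun ω hω => hφ₀ ω (hEA ω hω))
    (fun ω ω' h1 h2 hpt i => by
      have := hz.vel (hEA ω h1) (hEA ω' h2) hpt i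
      exact_mod_cast this)
  have hI₂ : ClG (F.zm w J' h (Box.plkC l i₀) z) i₁ J' D 0 P B₂ :=
    ClG.hered (F.zm w J' h (Box.plkC l i₀) z) _ _ _ _ _ B₁ B₂
      (fun ω hω => hEB ω (hB₂ ω hω)) hI
  refine ⟨B₂, fun ω hω => hEA ω (hB₂ ω hω), ?_,
    ciq_of F h (hz.sub fun ω hω => hEA ω (hB₂ ω hω)) hφ₂ hI₂⟩
  have hJ0 : (0 : ℝ) ≤ ((J' + 1 : ℕ) : ℝ) := Nat.cast_nonneg _
  calc e * Pe (cond F.p A True) B * Pe F.p A ≤
        ((J' + 1 : ℕ) * Pe (cond F.p A True) B₁) * Pe F.p A :=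
        mul_le_mul_of_nonneg_right hP₁ hA0.le
    _ = (J' + 1 : ℕ) * (Pe (cond F.p A True) B₁ * Pe F.p A) := by ring
    _ = (J' + 1 : ℕ) * Pe F.p E := by rw [hPE]
    _ ≤ (J' + 1 : ℕ) * (((2 * ((5 + 6 + 7 : ℕ) : ℝ) + 1) ^ 3) ^ 3 * Pe F.p B₂) :=
        mul_le_mul_of_nonneg_left hP₂ hJ0
    _ = _ := by ring

end Pool.ZCL
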