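import Pool.Agent.H42.S6C.Defs
import Pool.Agent.H35.ZCL.Leaf

/-!
# Implicit labels: sections glued, coordinates relabelled

`Imp F x r D w P A`: an implicit equation of degree at most `D` at the space-time points `x`, in
normal form (the label is the polynomial).
-/

set_option autoImplicit false

namespace Pool.ZCL

open Finset Real MvPolynomial
open Pool.Agent.H49.Ent Pool.Agent.H32.Dense Pool.STK Pool.KA Pool.KSAT Pool.K2S Pool.PB

variable {m J : ℕ}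

/-- Implicit labels at the space-time points `x`. -/
def Imp (F : Fam m J) (x : F.Ω → Option (Fin m) → ℝ) (r D w P : ℕ) (A : F.Ω → Prop) : Prop :=
  ∃ (z : (Fin m → ℤ) × (ℕ × F.ζ) → MvPolynomial (Option (Fin m)) ℝ)
    (z' : ((Fin m → ℝ) × (Fin m → ℝ)) × F.ζ × ℕ → MvPolynomial (Option (Fin m)) ℝ),
    (∀ y, (z y).totalDegree ≤ D) ∧ (∀ s, (z' s).totalDegree ≤ D) ∧ ∀ ω, A ω →
      z (ptr F r ω) = z' (slam F w ω) ∧
      eval (x ω) (pderiv none (z (ptr F r ω))) ≠ 0 ∧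
      |eval (x ω) (z (ptr F r ω))| ≤ 1 / 2 ^ P * |eval (x ω) (pderiv none (z (ptr F r ω)))|

theorem Imp.sub {F : Fam m J} {x : F.Ω → Option (Fin m) → ℝ} {r D w P : ℕ} {A B : F.Ω → Prop}
    (h : Imp F x r D w P A) (hB : Sub B A) : Imp F x r D w P B := by
  obtain ⟨z, z', h1, h2, h3⟩ := h
  exact ⟨z, z', h1, h2, fun ω hω => h3 ω (hB ω hω)⟩

/-- The form with a label. -/
theorem imp_iff (F : Fam m J) (x : F.Ω → Option (Fin m) → ℝ) (r D w P : ℕ) (A : F.Ω → Prop) :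
    Imp F x r D w P A ↔ ∃ (V : Type) (z : (Fin m → ℤ) × (ℕ × F.ζ) → V)
    (z' : ((Fin m → ℝ) × (Fin m → ℝ)) × F.ζ × ℕ → V)
    (R : V → MvPolynomial (Option (Fin m)) ℝ), (∀ v, (R v).totalDegree ≤ D) ∧ ∀ ω, A ω →
      z (ptr F r ω) = z' (slam F w ω) ∧
      eval (x ω) (pderiv none (R (z (ptr F r ω)))) ≠ 0 ∧
      |eval (x ω) (R (z (ptr F r ω)))| ≤
        1 / 2 ^ P * |eval (x ω) (pderiv none (R (z (ptr F r ω))))| := by
  classical
  constructor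
  · rintro ⟨z, z', h1, h2, h3⟩
    refine ⟨MvPolynomial (Option (Fin m)) ℝ, z, z',
      fun v => if v.totalDegree ≤ D then v else 0, fun v => ?_, fun ω hω => ?_⟩
    · simp only
      split_ifs with h
      · exact h
      · simp
    · obtain ⟨h4, h5, h6⟩ := h3 ω hω
      simp only
      rw [if_pos (h1 _)]
      exact ⟨h4, h5, h6⟩
  · rintro ⟨V, z, z', R, h1, h2⟩
    refine ⟨fun y => R (z y), fun s => R (z' s), fun y => h1 _, fun s => h1 _, fun ω hω => ?_⟩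
    obtain ⟨h4, h5, h6⟩ := h2 ω hω
    exact ⟨congrArg R h4, h5, h6⟩

/-- Events of the sections, glued. -/
theorem sec_ev {Ω κ : Type} [Fintype Ω] {p : Ω → ℝ} (hp : IsLaw p) (c : Ω → κ) (B : Ω → Prop)
    (Ψ : κ → (Ω → Prop) → Prop) {e : ℝ}
    (h : ∀ ω, 0 < p ω → B ω → ∃ B' : Ω → Prop, Sub B' (fun ω' => B ω' ∧ c ω' = c ω) ∧
      e * Pe (cond p c (c ω)) (fun ω' => B ω' ∧ c ω' = c ω) ≤ Pe (cond p c (c ω)) B' ∧
      Ψ (c ω) B') :
    ∃ B' : Ω → Prop, Sub B' B ∧ e * Pe p B ≤ Pe p B' ∧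
      ∀ ω, 0 < p ω → B' ω → Ψ (c ω) (fun ω' => B' ω' ∧ c ω' = c ω) := by
  classical
  have key : ∀ v : κ, ∃ E : Ω → Prop, (∃ ω, 0 < p ω ∧ B ω ∧ c ω = v) →
      Sub E (fun ω' => B ω' ∧ c ω' = v) ∧
      e * Pe (cond p c v) (fun ω' => B ω' ∧ c ω' = v) ≤ Pe (cond p c v) E ∧ Ψ v E := by
    intro v
    by_cases hv : ∃ ω, 0 < p ω ∧ B ω ∧ c ω = v
    · obtain ⟨ω, h1, h2, rfl⟩ := hv
      obtain ⟨E, hE⟩ := h ω h1 h2
      exact ⟨E, fun _ => hE⟩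
    · exact ⟨fun _ => False, fun h' => absurd h' hv⟩
  choose E hE using key
  obtain ⟨B', hB'⟩ : ∃ B' : Ω → Prop, B' = fun ω =>
      (∃ ω', 0 < p ω' ∧ B ω' ∧ c ω' = c ω) ∧ E (c ω) ω := ⟨_, rfl⟩
  have hsec : ∀ v, (∃ ω, 0 < p ω ∧ B ω ∧ c ω = v) → (fun ω' => B' ω' ∧ c ω' = v) = E v := by
    intro v hv
    funext ω'
    refine propext ⟨fun h1 => ?_, fun h1 => ?_⟩
    · have h2 := h1.1
      rw [hB'] at h2
      rw [← h1.2]
      exact h2.2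
    · have h2 := (hE v hv).1 ω' h1
      refine ⟨?_, h2.2⟩
      rw [hB']
      simp only
      rw [h2.2]
      exact ⟨hv, h1⟩
  have h0 : ∀ v, ∀ C : Ω → Prop, Pe (cond p c v) (fun ω' => C ω' ∧ c ω' = v) =
      Pe (cond p c v) C := by
    intro v C
    rw [Pe_eq, Pe_eq]
    refine Finset.sum_congr rfl fun ω' _ => ?_
    by_cases h1 : c ω' = v
    · by_cases h2 : C ω'
      · rw [if_pos ⟨h2, h1⟩, if_pos h2]
      · rw [if_neg (fun h => h2 h.1), if_neg h2]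
    · have h3 : cond p c v ω' = 0 := by
        unfold Pool.Agent.H49.Ent.cond
        rw [if_neg h1]
      rw [h3]
      simp
  refine ⟨B', fun ω hω => ?_, ?_, fun ω hω hBω => ?_⟩
  · rw [hB'] at hω
    exact ((hE _ hω.1).1 ω hω.2).1
  · have hPe : ∀ C : Ω → Prop, Pe p C = Ex p (fun ω => Pe (cond p c (c ω)) C) := by
      intro C
      have h1 : Pe p C = Ex p (fun ω => Pool.KAF.Pr (cond p c (c ω)) {ω | C ω}) := by
        rw [Pool.KAL.CDF.Ex_Pr hp.nonneg]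
        rfl
      exact h1
    rw [hPe B, hPe B']
    unfold Ex
    rw [Finset.mul_sum]
    refine Finset.sum_le_sum fun ω _ => ?_
    rcases (hp.nonneg ω).eq_or_lt with h1 | h1
    · rw [← h1]
      simp
    have h2 : e * Pe (cond p c (c ω)) B ≤ Pe (cond p c (c ω)) B' := by
      by_cases hv : ∃ ω', 0 < p ω' ∧ B ω' ∧ c ω' = c ω
      · have h3 := (hE _ hv).2.1
        rw [← hsec _ hv, h0, h0] at h3
        exact h3
      · have h3 : Pe (cond p c (c ω)) B = 0 := by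
          rw [Pe_eq]
          refine Finset.sum_eq_zero fun ω' _ => ?_
          by_cases h4 : B ω'
          · rw [if_pos h4]
            by_contra h5
            have h6 : 0 < cond p c (c ω) ω' :=
              lt_of_le_of_ne (cond_nonneg hp.nonneg _ _ _) (Ne.symm h5)
            have h7 := (cond_pos_iff hp.nonneg c (c ω) ω').1 h6
            exact hv ⟨ω', h7.1, h4, h7.2⟩
          · rw [if_neg h4]
        rw [h3, mul_zero]
        exact Pe_nonneg (isLaw_sec hp c h1) B'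
    calc e * (p ω * Pe (cond p c (c ω)) B) = p ω * (e * Pe (cond p c (c ω)) B) := by ring
      _ ≤ _ := mul_le_mul_of_nonneg_left h2 h1.le
  · have hω' := hBω
    rw [hB'] at hω'
    rw [hsec _ hω'.1]
    exact (hE _ hω'.1).2.2

/-- **Implicit labels, glued.** -/
theorem imp_glue {G : Fam m J} {κ : Type} {c : G.Ω → κ} {B : G.Ω → Prop} (hS : Sel G c B)
    {x : G.Ω → Option (Fin m) → ℝ} {r D w P : ℕ}
    (h : ∀ ω, 0 < G.p ω → B ω → ∀ hl : IsLaw (cond G.p c (c ω)),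
      Imp (G.res c (c ω) hl) x r D w P (fun ω' => B ω' ∧ c ω' = c ω)) :
    Imp G x r D w P (fun ω => B ω ∧ G.p ω ≠ 0) := by
  classical
  have hp := G.isLaw
  have hne : Nonempty {y : ((Fin m → ℤ) × (ℕ × G.ζ) → MvPolynomial (Option (Fin m)) ℝ) ×
      (((Fin m → ℝ) × (Fin m → ℝ)) × G.ζ × ℕ → MvPolynomial (Option (Fin m)) ℝ) //
      (∀ y', (y.1 y').totalDegree ≤ D) ∧ ∀ s, (y.2 s).totalDegree ≤ D} :=
    ⟨⟨(fun _ => 0, fun _ => 0), by simp⟩⟩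
  obtain ⟨f, hf⟩ := sel_choice hS
    (α := {y : ((Fin m → ℤ) × (ℕ × G.ζ) → MvPolynomial (Option (Fin m)) ℝ) ×
      (((Fin m → ℝ) × (Fin m → ℝ)) × G.ζ × ℕ → MvPolynomial (Option (Fin m)) ℝ) //
      (∀ y', (y.1 y').totalDegree ≤ D) ∧ ∀ s, (y.2 s).totalDegree ≤ D})
    (P := fun y ω => y.1.1 (ptr G r ω) = y.1.2 (slam G w ω) ∧
      eval (x ω) (pderiv none (y.1.1 (ptr G r ω))) ≠ 0 ∧
      |eval (x ω) (y.1.1 (ptr G r ω))| ≤
        1 / 2 ^ P * |eval (x ω) (pderiv none (y.1.1 (ptr G r ω)))|) (by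
      intro ω hω hB
      obtain ⟨z, z', h1, h2, h3⟩ := h ω hω hB (isLaw_sec hp c hω)
      exact ⟨⟨(z, z'), h1, h2⟩, fun ω' hω' => h3 ω' hω'⟩)
  exact ⟨fun y => (f y.2.2).1.1 y, fun s => (f s.2.1).1.2 s, fun y => (f y.2.2).2.1 y,
    fun s => (f s.2.1).2.2 s, fun ω hω => hf ω hω.1 hω.2⟩

theorem clg_iff (F : Fam m J) (i₁ : Fin m) (r D w P : ℕ) (A : F.Ω → Prop) :
    ClG F i₁ r D w P A ↔ ∃ P₁ : ℕ, P ≤ P₁ ∧ P₁ ≤ r ∧ Imp F (txg F i₁ P₁) r D w P A := by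
  constructor
  · rintro ⟨P₁, V, z, z', R, h0, h1, h2, h3⟩
    exact ⟨P₁, h0, h1, (imp_iff F _ r D w P A).2 ⟨V, z, z', R, h2, h3⟩⟩
  · rintro ⟨P₁, h0, h1, h⟩
    obtain ⟨V, z, z', R, h2, h3⟩ := (imp_iff F _ r D w P A).1 h
    exact ⟨P₁, V, z, z', R, h0, h1, h2, h3⟩

/-- **Implicit labels of the sections, glued.** -/
theorem clg_glue {G : Fam m J} {κ : Type} {c : G.Ω → κ} {B : G.Ω → Prop} (hS : Sel G c B)
    (hB : 0 < Pe G.p B) {i₁ : Fin m} {r D w P : ℕ} {e : ℝ} (he : 0 < e)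
    (h : ∀ ω, 0 < G.p ω → B ω → ∀ hl : IsLaw (cond G.p c (c ω)), ∃ B' : G.Ω → Prop,
      Sub B' (fun ω' => B ω' ∧ c ω' = c ω) ∧
      e * Pe (cond G.p c (c ω)) (fun ω' => B ω' ∧ c ω' = c ω) ≤ Pe (cond G.p c (c ω)) B' ∧
      ClG (G.res c (c ω) hl) i₁ r D w P B') :
    ∃ B' : G.Ω → Prop, Sub B' B ∧ e * Pe G.p B ≤ (r + 1 : ℕ) * Pe G.p B' ∧
      ClG G i₁ r D w P B' := by
  classical
  have hp := G.isLaw
  obtain ⟨B₁, hB₁, hP₁, h1⟩ := sec_ev hp c B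
    (fun v E => ∀ hl : IsLaw (cond G.p c v), ClG (G.res c v hl) i₁ r D w P E) (e := e)
    (fun ω hω hBω => by
      obtain ⟨B', h1, h2, h3⟩ := h ω hω hBω (isLaw_sec hp c hω)
      exact ⟨B', h1, h2, fun _ => h3⟩)
  have hB₁0 : 0 < Pe G.p B₁ := lt_of_lt_of_le (mul_pos he hB) hP₁
  obtain ⟨a, B₂, hB₂, hP₂, h2⟩ := sec_pigeon (ι := Fin (r + 1)) hp c B₁ hB₁0
    (fun a v E => ∀ hl : IsLaw (cond G.p c v), P ≤ (a : ℕ) ∧
      Imp (G.res c v hl) (txg G i₁ (a : ℕ)) r D w P E)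
    (fun ω hω hBω => by
      obtain ⟨P₁, h3, h4, h5⟩ := (clg_iff _ _ _ _ _ _ _).1 (h1 ω hω hBω (isLaw_sec hp c hω))
      exact ⟨⟨P₁, by omega⟩, fun _ => ⟨h3, h5⟩⟩)
  rw [Fintype.card_fin] at hP₂
  have hB₂0 : 0 < Pe G.p B₂ := by
    by_contra h3
    push Not at h3
    have h4 : ((r + 1 : ℕ) : ℝ) * Pe G.p B₂ ≤ 0 :=
      mul_nonpos_of_nonneg_of_nonpos (Nat.cast_nonneg _) h3
    linarith
  obtain ⟨ω₀, hω₀, hω₀'⟩ : ∃ ω, 0 < G.p ω ∧ B₂ ω := by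
    by_contra hcon
    push Not at hcon
    have : Pe G.p B₂ ≤ 0 := by
      rw [Pe_eq]
      refine Finset.sum_nonpos fun ω _ => ?_
      split_ifs with hω
      · by_contra h3
        push Not at h3
        exact hcon ω h3 hω
      · exact le_rfl
    linarith
  have ha := (h2 ω₀ hω₀ hω₀' (isLaw_sec hp c hω₀)).1
  have hI := imp_glue (hS.sub (fun ω hω => hB₁ ω (hB₂ ω hω))) (x := txg G i₁ (a : ℕ)) (r := r)
    (D := D) (w := w) (P := P) fun ω hω hBω hl => (h2 ω hω hBω hl).2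
  refine ⟨fun ω => B₂ ω ∧ G.p ω ≠ 0, fun ω hω => hB₁ ω (hB₂ ω hω.1), ?_,
    (clg_iff _ _ _ _ _ _ _).2 ⟨a, ha, by omega, hI⟩⟩
  rw [Pe_supp]
  exact hP₁.trans hP₂

end Pool.ZCL
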