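import Pool.Agent.H7.S6.AzSec
import Pool.Agent.H89.ZCL.Close
import Pool.Agent.H89.ZCL.Chb
import Pool.Agent.H19.BOX.See2
import Pool.Agent.H78.GLM.Main

/-!
# Change of box, in a class

A label and a chart of the zoom of `(v, s')` give a label and a chart of the zoom of `(w, s)`, for
`w ≤ v` and `s < s'`, on an event of small cost.
-/

set_option autoImplicit false

namespace Pool.ZCL

open Finset Real
open Pool.Agent.H49.Ent Pool.Agent.H32.Dense Pool.STK Pool.KA Pool.KSAT Pool.K2S Pool.PB Pool.KS6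
open Pool.S6C

/-- The data of the finer zoom are functions of the data of the coarser zoom, on an event of small
cost; the finer zoom is written with its own window and its own precision. -/
theorem chb_at {m : ℕ} {a R h₁ : ℝ} (ha : 1 ≤ a) (hR : 0 < R) (hU : UBa m a R) (hh₁ : 0 < h₁)
    (i₀ : Fin m) {η : ℝ} (hη : 0 < η) : ∃ τ > 0, ∃ J₁ : ℕ, ∀ J ≥ J₁, ∀ (F : Fam m J)
    (B : F.Ω → Prop), Fam.Stt F a R τ B → Lb F i₀ ⌊h₁ * J⌋₊ B →
    ∀ (w x lam β J0 Ja w' wz r wv lv : ℕ) (z z' : F.Ω → Fin m → ℝ), wv = w + x →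
    lv = lam + β → ∀ (h0 : w + J0 ≤ J) (ha : wv + Ja ≤ J), r ≤ J → r = w + J0 + lam →
    AzF F i₀ r lam w B z → AzF F i₀ r lv wv B z' →
    (∀ ω, B ω → ∀ i, |z' ω i - z ω i| ≤ 1 / 8 / 2 ^ lam) →
    Ja + x + β = J0 → w' ≤ Ja → wz ≤ J0 → w' + x ≤ wz →
    ∃ B' : F.Ω → Prop, Sub B' B ∧ Real.exp (-(η * J)) * Pe F.p B ≤ Pe F.p B' ∧
    (∃ φ : (Fin m → ℤ) × (ℕ × (F.zm w J0 h0 (Box.plkC lam i₀) z).ζ) →
        (Fin m → ℤ) × (ℕ × (F.zm wv Ja ha (Box.plkC lv i₀) z').ζ), ∀ ω, B' ω →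
      ptr (F.zm wv Ja ha (Box.plkC lv i₀) z') Ja ω =
        φ (ptr (F.zm w J0 h0 (Box.plkC lam i₀) z) J0 ω)) ∧
    (∃ ψ : ((Fin m → ℝ) × (Fin m → ℝ)) × (F.zm w J0 h0 (Box.plkC lam i₀) z).ζ × ℕ →
        ((Fin m → ℝ) × (Fin m → ℝ)) × (F.zm wv Ja ha (Box.plkC lv i₀) z').ζ × ℕ,
      ∀ ω, B' ω → slam (F.zm wv Ja ha (Box.plkC lv i₀) z') w' ω =
        ψ (slam (F.zm w J0 h0 (Box.plkC lam i₀) z) wz ω)) := by
  obtain ⟨τ, hτ, J₁, hchb⟩ := Pool.BOX.chb_stt ha hR hU hh₁ i₀ hη 1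
  refine ⟨τ, hτ, J₁, ?_⟩
  intro J hJ F B hS hL w x lam β J0 Ja w' wz r wv lv z z' hwv hlv h0 ha' hr hr' hz hz' hzz hJJ hw'
    hwz hw
  subst hwv hlv
  have p0 : (0 : ℝ) < 2 ^ lam := by positivity
  obtain ⟨B', φ, ψ, hB', hP, hφψ⟩ := hchb J hJ F B hS hL w x lam β J0 Ja Ja J0 w' wz r z z' h0 ha'
    hr (by omega) (by omega) hz hz' (fun ω hω i => by
      rw [abs_sub_comm]
      refine (hzz ω hω i).trans (div_le_div_of_nonneg_right ?_ p0.le)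
      norm_num) le_rfl le_rfl (by omega) (by omega) hw' hwz hw
  exact ⟨B', hB', hP, ⟨φ, fun ω hω => (hφψ ω hω).1⟩, ⟨ψ, fun ω hω => (hφψ ω hω).2⟩⟩

/-- The law conditioned on an event, twice. -/
theorem cond_twice {Ω : Type} [Fintype Ω] {p : Ω → ℝ} (A : Ω → Prop)
    (hl : IsLaw (cond p A True)) : cond (cond p A True) A True = cond p A True := by
  classical
  have h1 : law (cond p A True) A True = 1 := by
    rw [← hl.sum_one]
    unfold law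
    refine Finset.sum_congr rfl fun ω _ => ?_
    by_cases h : A ω = True
    · rw [if_pos h]
    · rw [if_neg h]
      unfold Pool.Agent.H49.Ent.cond
      rw [if_neg h]
  obtain ⟨q, hq⟩ : ∃ q, q = cond p A True := ⟨_, rfl⟩
  rw [← hq] at h1 ⊢
  funext ω
  unfold Pool.Agent.H49.Ent.cond
  rw [h1]
  by_cases h : A ω = True
  · rw [if_pos h, div_one]
  · rw [if_neg h, hq]
    unfold Pool.Agent.H49.Ent.cond
    rw [if_neg h]

/-- The time in the windows. -/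
theorem tm_slam {m J : ℕ} (F : Fam m J) {w : ℕ} (hw : w ≤ J) {e : ℝ} (he : F.Tm e) :
    ((J : ℝ) - w) * Real.log 2 - CH F.p F.T (slam F w) ≤ e := by
  have h1 := time_digits F (w := w) (K := J - w) (by omega) he
  have h2 : CH F.p (fun ω => (F.T1 (w + (J - w)) ω : ℤ)) (slam F w) ≤
      CH F.p F.T (slam F w) := by
    refine CH_mono_left F.isLaw.nonneg fun ω ω' _ _ h => ?_
    have h3 : F.T ω = F.T ω' := (Prod.ext_iff.1 h).1
    change ((F.T ω / 2 ^ (J - (w + (J - w))) : ℕ) : ℤ) = ((F.T ω' / 2 ^ (J - (w + (J - w))) : ℕ) : ℤ)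
    rw [h3]
  rw [Nat.cast_sub hw] at h1
  linarith only [h1, h2]

/-- **Change of box for a family**: the pointwise part and the bound of the slopes. -/
theorem chb_fam {K : ℕ} (hK : 1 ≤ K) : ∃ c₁ : ℕ, ∀ {J : ℕ} (F : Fam 3 J)
    {w x lam β J0 Ja wv lv : ℕ} (_ : wv = w + x) (_ : lv = lam + β) (h0 : w + J0 ≤ J)
    (ha : wv + Ja ≤ J) (_ : Ja + x + β = J0) {i₀ i₁ : Fin 3} (_ : i₁ ≠ i₀)
    (z z' : F.Ω → Fin 3 → ℝ) {B : F.Ω → Prop}
    (_ : ∀ ω, B ω → ∀ j, |z' ω j - z ω j| ≤ 1 / 8 / 2 ^ lam) {q a P : ℕ} {g θ ψ : ℝ}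
    (_ : 1 ≤ β) (_ : q ≤ Ja) (_ : a + 5 ≤ Ja) (_ : P ≤ Ja) (_ : 0 < θ)
    (_ : (a : ℝ) + g * J0 + 6 * K * θ + c₁ ≤ P) (_ : g * J0 + c₁ ≤ q)
    (_ : (a : ℝ) + g * J0 + c₁ ≤ Ja) (_ : 0 ≤ g)
    (_ : ∃ φ : (Fin 3 → ℤ) × (ℕ × (F.zm w J0 h0 (Box.plkC lam i₀) z).ζ) →
        (Fin 3 → ℤ) × (ℕ × (F.zm wv Ja ha (Box.plkC lv i₀) z').ζ), ∀ ω, B ω →
      ptr (F.zm wv Ja ha (Box.plkC lv i₀) z') Ja ω =
        φ (ptr (F.zm w J0 h0 (Box.plkC lam i₀) z) J0 ω))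
    (_ : ∃ ψ : ((Fin 3 → ℝ) × (Fin 3 → ℝ)) × (F.zm w J0 h0 (Box.plkC lam i₀) z).ζ × ℕ →
        ((Fin 3 → ℝ) × (Fin 3 → ℝ)) × (F.zm wv Ja ha (Box.plkC lv i₀) z').ζ × ℕ,
      ∀ ω, B ω → slam (F.zm wv Ja ha (Box.plkC lv i₀) z') a ω =
        ψ (slam (F.zm w J0 h0 (Box.plkC lam i₀) z) (a + x + β + 3) ω))
    (_ : Ch (F.zm wv Ja ha (Box.plkC lv i₀) z') i₁ q B)
    (_ : Lab (F.zm wv Ja ha (Box.plkC lv i₀) z') i₁ Ja K a a P B)
    (hl : IsLaw (cond F.p B True))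
    (_ : ∀ B' : F.Ω → Prop, Real.exp (-(ψ * J0)) ≤ Pe (cond F.p B True) B' →
      ¬ PlU 1 (1 / 2 ^ ⌊g * J0⌋₊)
        (Fam.pt ((F.res B True hl).zm w J0 h0 (Box.plkC lam i₀) z))
        ((F.res B True hl).zm w J0 h0 (Box.plkC lam i₀) z).d B')
    (_ : ((F.res B True hl).zm w J0 h0 (Box.plkC lam i₀) z).Tm θ)
    (_ : Real.log 4 ≤ ψ * J0),
    ∃ B' : F.Ω → Prop, Sub B' B ∧ Pe F.p B ≤ 2 * Pe F.p B' ∧
      Ch (F.zm w J0 h0 (Box.plkC lam i₀) z) i₁ (q + β - 4) B' ∧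
      Lab (F.zm w J0 h0 (Box.plkC lam i₀) z) i₁ J0 K (a + x + β + c₁) (a + x + β + c₁)
        (P + x + β - 9) B' := by
  classical
  obtain ⟨c₀, hgrad⟩ := Pool.GLM.lab_grad 3 K (by norm_num) hK
  refine ⟨c₀ + 12, ?_⟩
  intro J F w x lam β J0 Ja wv lv hwv hlv h0 ha hres i₀ i₁ hi z z' B hz q a P g θ ψ hβ hq haJ hP
    hθ n1 n2 n3 hg hφ hψ hCh hLab hl hSp hTm hψJ
  subst hwv hlv
  push_cast at n1 n2 n3
  have hp := F.isLaw
  have p0 : (0 : ℝ) < 2 ^ lam := by positivity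
  have hm : ((3 : ℕ) : ℝ) = 3 := by norm_num
  have hgJ : (⌊g * (J0 : ℝ)⌋₊ : ℝ) ≤ g * J0 := Nat.floor_le (by positivity)
  have hresr : (Ja : ℝ) + x + β = J0 := by exact_mod_cast hres
  have hq12 : 12 ≤ q := by
    have h1 : (12 : ℝ) ≤ q := by
      have h3 : (0 : ℝ) ≤ g * J0 := by positivity
      have h5 : (0 : ℝ) ≤ c₀ := Nat.cast_nonneg c₀
      linarith only [n2, hgJ]
    exact_mod_cast h1
  -- the chart
  have hC₀ : Ch (F.zm w J0 h0 (Box.plkC lam i₀) z) i₁ (q + β - 4) B := by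
    refine Pool.CHB.chb_ch F h0 ha hi z z' (h := q) (c := 4) (fun ω hω j => ?_) hβ hq (by omega)
      (by rw [hm]; norm_num) (by omega) ?_ hCh
    · refine (hz ω hω j).trans (le_of_eq ?_)
      rw [hm]
      norm_num
    · obtain ⟨φ, h1⟩ := hφ
      exact ⟨φ, fun ω hω => by
        have := h1 ω hω
        rwa [ptr_J, ptr_J] at this⟩
  -- the label
  exact by
   have hL₀ : Pool.GLM.LabS (F.zm w J0 h0 (Box.plkC lam i₀) z) i₁ J0 (max K 1)
       (a + x + β + 3) (P + x + β - 9) 7 B := by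
     refine Pool.CHB.chb_lab F h0 ha (by omega) hi z z' (fun ω hω j => ?_) (c := 9) (a := a)
       (w' := a) (P := P) (r' := Ja) (K := K) le_rfl haJ hP ?_ ?_ ?_ hφ hψ hLab
     · refine (hz ω hω j).trans (div_le_div_of_nonneg_right (by norm_num) p0.le)
     · rw [hm]; norm_num
     · have : 9 ≤ P := by
         have h1 : (12 : ℝ) ≤ P := by
           have h2 : (0 : ℝ) ≤ a := Nat.cast_nonneg a
           have h3 : (0 : ℝ) ≤ g * J0 := by positivity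
           have h4 : (0 : ℝ) ≤ 6 * K * θ := by positivity
           have h5 : (0 : ℝ) ≤ c₀ := Nat.cast_nonneg c₀
           linarith only [n1, hgJ, h4]
         have : 12 ≤ P := by exact_mod_cast h1
         omega
       omega
     · rw [hm]; norm_num
   rw [max_eq_left hK] at hL₀
   -- the bound of the slopes
   have hq1 : cond (cond F.p B True) B True = cond F.p B True := cond_twice B hl
   have hone : Pe (cond F.p B True) B = 1 := by
     rw [← hl.sum_one, Pe_eq]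
     refine Finset.sum_congr rfl fun ω _ => ?_
     by_cases h : B ω
     · rw [if_pos h]
     · rw [if_neg h]
       unfold Pool.Agent.H49.Ent.cond
       rw [if_neg (fun h' => h (of_eq_true h'))]
   obtain ⟨A', hA', hPA', hLab'⟩ : ∃ A' : F.Ω → Prop, Sub A' B ∧
       Pe (cond F.p B True) B ≤ 2 * Pe (cond F.p B True) A' ∧
       Lab (F.zm w J0 h0 (Box.plkC lam i₀) z) i₁ J0 K (a + x + β + 3 + 7 + c₀) (a + x + β + 3)
         (P + x + β - 9) A' := hgrad J0 ((F.res B True hl).zm w J0 h0 (Box.plkC lam i₀) z) i₁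
     J0 (a + x + β + 3) (P + x + β - 9) 7 (q + β - 4) ψ g θ B
     (by
       change 0 < Pe (cond F.p B True) B
       rw [hone]
       exact one_pos) hL₀ hC₀
     (by
       intro B' _ hB'
       refine hSp B' ?_
       change Real.exp (-(ψ * J0)) * Pe (cond F.p B True) B ≤ Pe (cond F.p B True) B' at hB'
       rwa [hone, mul_one] at hB') hψJ hθ
     (by
       have h1 := tm_slam ((F.res B True hl).zm w J0 h0 (Box.plkC lam i₀) z)
         (w := a + x + β + 3) (by omega) hTm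
       change ((J0 : ℝ) - _) * Real.log 2 - CH (cond (cond F.p B True) B True) _ _ ≤ θ
       rw [hq1]
       exact h1) le_rfl (by omega)
     (by
       have h1 : (((a + x + β + 3 : ℕ) : ℝ)) = a + x + β + 3 := by push_cast; ring
       have h12 : 9 ≤ P + x + β := by
         have h1 : (12 : ℝ) ≤ P := by
           have h2 : (0 : ℝ) ≤ a := Nat.cast_nonneg a
           have h3 : (0 : ℝ) ≤ g * J0 := by positivity
           have h4 : (0 : ℝ) ≤ 6 * K * θ := by positivity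
           have h5 : (0 : ℝ) ≤ c₀ := Nat.cast_nonneg c₀
           linarith only [n1, hgJ, h4]
         have : 12 ≤ P := by exact_mod_cast h1
         omega
       rw [h1, Nat.cast_sub h12]
       push_cast
       linarith only [n1, hgJ])
     (by
       have h1 : ((⌊g * (J0 : ℝ)⌋₊ + c₀ : ℕ) : ℝ) ≤ ((q + β - 4 : ℕ) : ℝ) := by
         have h2 : (q : ℝ) + β - 4 ≤ ((q + β - 4 : ℕ) : ℝ) := by
           have : ((q + β : ℕ) : ℝ) ≤ ((q + β - 4 + 4 : ℕ) : ℝ) := by exact_mod_cast le_tsub_add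
           push_cast at this
           linarith only [this]
         have h3 : (0 : ℝ) ≤ β := Nat.cast_nonneg β
         push_cast
         linarith only [n2, hgJ, h2]
       exact_mod_cast h1)
     (by
       have h1 : ((⌊g * (J0 : ℝ)⌋₊ + (a + x + β + 3) + 7 + c₀ : ℕ) : ℝ) ≤ (J0 : ℝ) := by
         push_cast
         linarith only [n3, hgJ, hresr]
       exact_mod_cast h1)
   exact by
    refine ⟨A', hA', ?_, Ch.hered (F.zm w J0 h0 (Box.plkC lam i₀) z) _ _ B A' hA' hC₀, ?_⟩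
    · change Pe (cond F.p B True) B ≤ 2 * Pe (cond F.p B True) A' at hPA'
      have hB0 : 0 < Pe F.p B := by
        rcases (Pe_nonneg hp B).eq_or_lt with h1 | h1
        · exfalso
          rw [Pe_eq] at hone
          have h2 : ∀ ω, cond F.p B True ω = 0 := by
            intro ω
            have e0 : law F.p B True = 0 := by
              have : Pe F.p B = law F.p B True := rfl
              rw [← this]
              exact h1.symm
            unfold Pool.Agent.H49.Ent.cond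
            rw [e0]
            simp
          rw [Finset.sum_eq_zero fun ω _ => by rw [h2 ω]; simp] at hone
          exact zero_ne_one hone
        · exact h1
      rw [hone, Pe_cond, ← mul_div_assoc, le_div_iff₀ hB0, one_mul] at hPA'
      have h2 : Pe F.p (fun ω => B ω ∧ A' ω) ≤ Pe F.p A' := Pe_mono hp fun ω hω => hω.2
      linarith only [hPA', h2]
    · have h1 : a + x + β + 3 + 7 + c₀ ≤ a + x + β + (c₀ + 12) := by omega
      refine Lab.mono (F := F.zm w J0 h0 (Box.plkC lam i₀) z) le_rfl le_rfl h1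
        (by omega : a + x + β + 3 ≤ a + x + β + (c₀ + 12)) ?_ le_rfl hLab'
      have h2 : ((a + x + β + (c₀ + 12) : ℕ) : ℝ) ≤ (J0 : ℝ) := by
        push_cast
        have h3 : (0 : ℝ) ≤ g * J0 := by positivity
        linarith only [n3, hgJ, hresr]
      exact_mod_cast h2

/-- **Change of box in a class.** A chart and a label of the zoom at the window `v` with the
precision `s'` give a chart and a label of the zoom at the window `w ≤ v` with the precision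
`s < s'`, on an event of small cost; the frames of the coarser zoom are the frames at a precision
`s₁` between. The freedom `ψ` does not depend on the windows and the precisions. -/
theorem chb_class {K : ℕ} (hK : 1 ≤ K) : ∃ c₁ : ℕ, ∀ {S : PCl 3} {a R h₁ : ℝ} {i₀ : Fin 3}
    {Q pi : ℝ}, AzH S a R h₁ i₀ Q pi → ∀ {c : ℝ}, BTail S c Q → ∀ {e g κ y : ℝ}, 0 < e →
    0 < g → g ≤ 1 → 0 < κ → 0 < y → ∃ ψ > 0, ∀ w v s s₁ s' : ℝ, 0 ≤ w → w ≤ v → 0 ≤ s →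
    s + y ≤ s₁ → s₁ ≤ s' → v + s' + e ≤ Q → pi - e * g / 16 ≤ s → ∃ J₁ : ℕ, ∀ J ≥ J₁,
    ∀ (F : Fam 3 J) (B : F.Ω → Prop), S.St ψ J F B → ∀ z z' : F.Ω → Fin 3 → ℝ,
    AzF F i₀ ⌊Q * J⌋₊ ⌊s₁ * J⌋₊ ⌊w * J⌋₊ B z → AzF F i₀ ⌊Q * J⌋₊ ⌊s' * J⌋₊ ⌊v * J⌋₊ B z' →
    ∀ (h : ⌊w * J⌋₊ + azJ Q w s J ≤ J) (h' : ⌊v * J⌋₊ + azJ Q v s' J ≤ J) (i₁ : Fin 3),
    i₁ ≠ i₀ → ∀ q b P : ℕ, q ≤ azJ Q v s' J → P ≤ azJ Q v s' J → b + 5 ≤ azJ Q v s' J →
    (b : ℝ) + 2 * (g * azJ Q w s J) + c₁ ≤ P → g * azJ Q w s J + c₁ ≤ q →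
    (b : ℝ) + g * azJ Q w s J + c₁ ≤ azJ Q v s' J →
    Ch (F.zm ⌊v * J⌋₊ (azJ Q v s' J) h' (Box.plkC ⌊s' * J⌋₊ i₀) z') i₁ q B →
    Lab (F.zm ⌊v * J⌋₊ (azJ Q v s' J) h' (Box.plkC ⌊s' * J⌋₊ i₀) z') i₁ (azJ Q v s' J) K b b P B →
    ∃ B' : F.Ω → Prop, Sub B' B ∧ Real.exp (-(κ * J)) * Pe F.p B ≤ Pe F.p B' ∧
      ∀ q' b' P' : ℕ, q' + 4 ≤ q + (⌊s' * J⌋₊ - ⌊s * J⌋₊) →
      b + (⌊v * J⌋₊ - ⌊w * J⌋₊) + (⌊s' * J⌋₊ - ⌊s * J⌋₊) + c₁ ≤ b' → b' ≤ azJ Q w s J →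
      P' + 9 ≤ P + (⌊v * J⌋₊ - ⌊w * J⌋₊) + (⌊s' * J⌋₊ - ⌊s * J⌋₊) →
      Ch (F.zm ⌊w * J⌋₊ (azJ Q w s J) h (Box.plkC ⌊s * J⌋₊ i₀) z) i₁ q' B' ∧
      Lab (F.zm ⌊w * J⌋₊ (azJ Q w s J) h (Box.plkC ⌊s * J⌋₊ i₀) z) i₁ (azJ Q w s J) K b' b' P'
        B' := by
  classical
  obtain ⟨c₁, hfam⟩ := chb_fam hK
  refine ⟨c₁, ?_⟩
  intro S a R h₁ i₀ Q pi H c hT e g κ y he hg hg1 hκ hy
  have hK0 : (0 : ℝ) < K := by exact_mod_cast hK
  obtain ⟨τ₁, hτ₁, J₁, hcl⟩ := Pool.CHB.az_close (m := 3) (i₀ := i₀) H.a1 H.R0 H.ub H.h₁0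
    (y := min (y / 2) 1) (lt_min (by positivity) one_pos) (min_le_right _ _)
  obtain ⟨ψs, hψs0, hyp⟩ := az_hyp_at H hT he (gs := fun _ => g) (fun _ => hg) (fun _ => hg1)
  obtain ⟨ψ₁, hψ₁, hyp'⟩ := hyp 0 (g / (6 * K)) (by positivity)
  obtain ⟨η, hη⟩ : ∃ η, η = min (κ / 4) (ψ₁ / 4) := ⟨_, rfl⟩
  have hη0 : 0 < η := by rw [hη]; exact lt_min (by positivity) (by positivity)
  have hη1 : η ≤ κ / 4 := by rw [hη]; exact min_le_left _ _
  have hη2 : η ≤ ψ₁ / 4 := by rw [hη]; exact min_le_right _ _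
  obtain ⟨τ₂, hτ₂, J₂, hchb⟩ := chb_at (m := 3) H.a1 H.R0 H.ub H.h₁0 i₀ hη0
  obtain ⟨τ, hτ⟩ : ∃ τ, τ = min (min τ₁ (τ₂ / 2)) (min (ψ₁ / 4) (κ / 4)) := ⟨_, rfl⟩
  have hτ0 : 0 < τ := by
    rw [hτ]
    exact lt_min (lt_min hτ₁ (by positivity)) (lt_min (by positivity) (by positivity))
  have hτ1 : τ ≤ τ₁ := by rw [hτ]; exact (min_le_left _ _).trans (min_le_left _ _)
  have hτ2 : τ ≤ τ₂ / 2 := by rw [hτ]; exact (min_le_left _ _).trans (min_le_right _ _)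
  have hτ3 : τ ≤ ψ₁ / 4 := by rw [hτ]; exact (min_le_right _ _).trans (min_le_left _ _)
  have hτ4 : τ ≤ κ / 4 := by rw [hτ]; exact (min_le_right _ _).trans (min_le_right _ _)
  refine ⟨τ, hτ0, ?_⟩
  intro w v s s₁ s' hw0 hwv hs0 hys hss hws hpi
  obtain ⟨J₀, hJ₀⟩ := exists_nat_gt (Real.log 4 / (3 * ψs 0))
  have hmx : max s 0 = s := max_eq_left hs0
  have hs'0 : 0 ≤ s' := by linarith only [hy, hs0, hys, hss]
  have hmx' : max s' 0 = s' := max_eq_left hs'0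
  obtain ⟨J₃, hJ₃⟩ := hyp' w s hw0 (by rw [hmx]; linarith only [hy, hwv, hys, hss, hws]) (fun _ _ => hpi) J₀
  obtain ⟨J₄, hJ₄⟩ := exists_nat_gt (2 / e + 10 / y + Real.log 2 / τ)
  exact by
   refine ⟨max (max J₁ J₂) (max J₃ J₄), ?_⟩
   intro J hJ F B hSt z z' hz hz' h h' i₁ hi q b P hq hP hb n1 n2 n3 hCh hLab
   have hJ1 : J₁ ≤ J := (le_max_left _ _).trans ((le_max_left _ _).trans hJ)
   have hJ2 : J₂ ≤ J := (le_max_right _ _).trans ((le_max_left _ _).trans hJ)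
   have hJ3 : J₃ ≤ J := (le_max_left _ _).trans ((le_max_right _ _).trans hJ)
   have hJ4 : 2 / e + 10 / y + Real.log 2 / τ < J :=
     hJ₄.trans_le (by exact_mod_cast (le_max_right _ _).trans ((le_max_right _ _).trans hJ))
   have l2 : 0 < Real.log 2 := Real.log_pos (by norm_num)
   have q1 : 0 < 2 / e := by positivity
   have q2 : 0 < 10 / y := by positivity
   have q3 : 0 < Real.log 2 / τ := by positivity
   have hJr : (0 : ℝ) < J := by linarith only [hJ4, q1, q2, q3]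
   have hyJ : 10 ≤ y * J := by
     have : 10 / y ≤ J := by linarith only [hJ4, q1, q3]
     rw [div_le_iff₀ hy] at this
     linarith only [this]
   have hτJ : Real.log 2 ≤ τ * J := by
     have : Real.log 2 / τ ≤ J := by linarith only [hJ4, q1, q2]
     rw [div_le_iff₀ hτ0] at this
     linarith only [this]
   have hp := F.isLaw
   have hQ1 := H.Q1
   obtain ⟨hadd, hJ'⟩ := azJ_add he hw0 (by rw [hmx]; linarith only [hy, hwv, hys, hss, hws]) (s := s) (Q := Q) (J := J)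
     (by linarith only [hJ4, q2, q3])
   obtain ⟨hadd', hJ''⟩ := azJ_add he (hw0.trans hwv) (by rw [hmx']; linarith only [hws]) (s := s') (Q := Q)
     (J := J) (by linarith only [hJ4, q2, q3])
   have hfl : ⌊w * (J : ℝ)⌋₊ ≤ ⌊v * (J : ℝ)⌋₊ :=
     Nat.floor_le_floor (mul_le_mul_of_nonneg_right hwv hJr.le)
   have hfs : ⌊s₁ * (J : ℝ)⌋₊ ≤ ⌊s' * (J : ℝ)⌋₊ :=
     Nat.floor_le_floor (mul_le_mul_of_nonneg_right hss hJr.le)
   -- the precisions
   exact by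
    have hprec : ⌊min (y / 2) 1 * (J : ℝ)⌋₊ + 3 + ⌊s * (J : ℝ)⌋₊ ≤ ⌊s₁ * (J : ℝ)⌋₊ := by
      have f1 : (⌊min (y / 2) 1 * (J : ℝ)⌋₊ : ℝ) ≤ y / 2 * J :=
        (Nat.floor_le (mul_nonneg (le_min (by positivity) zero_le_one) hJr.le)).trans
          (mul_le_mul_of_nonneg_right (min_le_left _ _) hJr.le)
      have f2 : (⌊s * (J : ℝ)⌋₊ : ℝ) ≤ s * J := Nat.floor_le (by positivity)
      have f3 : s₁ * J < ⌊s₁ * (J : ℝ)⌋₊ + 1 := Nat.lt_floor_add_one _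
      have f4 : (s + y) * J ≤ s₁ * J := mul_le_mul_of_nonneg_right hys hJr.le
      have f5 : ((⌊min (y / 2) 1 * (J : ℝ)⌋₊ + 3 + ⌊s * (J : ℝ)⌋₊ : ℕ) : ℝ) <
          ((⌊s₁ * (J : ℝ)⌋₊ + 1 : ℕ) : ℝ) := by
        push_cast
        linarith only [he, hy, hw0, hwv, hs0, hys, hss, hws, hyJ, hQ1, f1, f2, f3, f4]
      have := Nat.cast_lt.1 f5
      omega
    -- the frames are close
    obtain ⟨B₀, hB₀, hPB₀, hclose⟩ := hcl J hJ1 F B (Fam.Stt.mono hτ1 (H.st _ _ _ _ hSt))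
      (H.lb _ _ _ _ hSt) ⌊Q * J⌋₊ ⌊s₁ * J⌋₊ ⌊s' * J⌋₊ ⌊w * J⌋₊ ⌊v * J⌋₊ z z' (floor_le_J hQ1 J)
      hfs hz hz'
    have hhalf : Real.exp (-(τ * J)) ≤ 1 / 2 := by
      have h1 : Real.exp (-(τ * J)) ≤ Real.exp (-(Real.log 2)) := Real.exp_le_exp.2 (by linarith only [hτJ])
      rwa [Real.exp_neg (Real.log 2), Real.exp_log (by norm_num), ← one_div] at h1
    have hB0 : 0 < Pe F.p B := lt_of_lt_of_le (Real.exp_pos _) (H.st _ _ _ _ hSt).2.2.2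
    have hPB₀' : Real.exp (-(τ * J)) * Pe F.p B ≤ Pe F.p B₀ := by
      have := mul_le_mul_of_nonneg_right hhalf hB0.le
      linarith only [hPB₀, this]
    have hSt₀ : S.St (τ + τ) J F B₀ := S.res hτ0.le hSt hB₀ hPB₀'
    have hcl' : ∀ ω, B₀ ω → ∀ j, |z' ω j - z ω j| ≤ 1 / 8 / 2 ^ ⌊s * (J : ℝ)⌋₊ := by
      intro ω hω j
      refine (hclose ω hω j).trans ?_
      rw [div_div, div_le_div_iff₀ (by positivity) (by positivity), one_mul]
      have h1 : (2 : ℝ) ^ (⌊min (y / 2) 1 * (J : ℝ)⌋₊ + 3 + ⌊s * (J : ℝ)⌋₊) ≤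
          2 ^ ⌊s₁ * (J : ℝ)⌋₊ := pow_le_pow_right₀ (by norm_num) hprec
      rw [pow_add, pow_add] at h1
      nlinarith only [h1]
    -- the data of the finer zoom
    exact by
     obtain ⟨B₁, hB₁, hPB₁, hφ, hψ⟩ := hchb J hJ2 F B₀
       (Fam.Stt.mono (by linarith only [hτ2]) (H.st _ _ _ _ hSt₀)) (H.lb _ _ _ _ hSt₀) ⌊w * J⌋₊
       (⌊v * J⌋₊ - ⌊w * J⌋₊) ⌊s * J⌋₊ (⌊s' * J⌋₊ - ⌊s * J⌋₊) (azJ Q w s J) (azJ Q v s' J) b
       (b + (⌊v * J⌋₊ - ⌊w * J⌋₊) + (⌊s' * J⌋₊ - ⌊s * J⌋₊) + 3) ⌊Q * J⌋₊ ⌊v * J⌋₊ ⌊s' * J⌋₊ z z'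
       (by omega) (by omega) h h' (floor_le_J hQ1 J) (by omega)
       ((hz.sub hB₀).coarse (by omega)) (hz'.sub hB₀) hcl' (by omega) (by omega) (by omega)
       (by omega)
     have hSt₁ : S.St ψ₁ J F B₁ := S.mono (by linarith only [hη0, hη2, hτ3]) (S.res hη0.le hSt₀ hB₁ hPB₁)
     have hB₁0 : 0 < Pe F.p B₁ := lt_of_lt_of_le (Real.exp_pos _) (H.st _ _ _ _ hSt₁).2.2.2
     have hl : IsLaw (cond F.p B₁ True) := isLaw_cond hp hB₁0
     have hB₁B : Sub B₁ B := fun ω hω => hB₀ ω (hB₁ ω hω)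
     obtain ⟨hJ₀', -, hZ⟩ := hJ₃ J hJ3 F B₁ hSt₁ z ((hz.sub hB₁B).coarse (by omega)) hl h
     have hJ0pos : (0 : ℝ) < azJ Q w s J := lt_of_lt_of_le (by positivity) hJ'
     have hθ : 0 < g / (6 * K) * azJ Q w s J := by positivity
     obtain ⟨B₂, hB₂, hPB₂, hCh₂, hLab₂⟩ := hfam F (w := ⌊w * J⌋₊) (x := ⌊v * J⌋₊ - ⌊w * J⌋₊)
       (lam := ⌊s * J⌋₊) (β := ⌊s' * J⌋₊ - ⌊s * J⌋₊) (J0 := azJ Q w s J) (Ja := azJ Q v s' J)
       (wv := ⌊v * J⌋₊) (lv := ⌊s' * J⌋₊) (by omega) (by omega) h h' (by omega) hi z z'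
       (B := B₁) (fun ω hω => hcl' ω (hB₁ ω hω)) (q := q) (a := b) (P := P) (g := g)
       (θ := g / (6 * K) * azJ Q w s J) (ψ := 3 * ψs 0) (by omega) hq hb hP hθ
       (by
         have : 6 * (K : ℝ) * (g / (6 * K) * azJ Q w s J) = g * azJ Q w s J := by
           field_simp
         rw [this]
         linarith only [n1]) n2 n3 hg.le hφ hψ
       (Ch.hered (F.zm ⌊v * J⌋₊ (azJ Q v s' J) h' (Box.plkC ⌊s' * J⌋₊ i₀) z') _ _ B B₁ hB₁B hCh)
       (Pool.PB.Lab.hered (F.zm ⌊v * J⌋₊ (azJ Q v s' J) h' (Box.plkC ⌊s' * J⌋₊ i₀) z') _ _ _ _ _ _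
         B B₁ hB₁B hLab) hl
       (fun B' hB' => hZ.sp 0 le_rfl B' hB') hZ.tm
       (by
         rw [div_lt_iff₀ (by have := hψs0 0; positivity)] at hJ₀
         have h1 : (J₀ : ℝ) ≤ azJ Q w s J := by exact_mod_cast hJ₀'
         have h2 := mul_le_mul_of_nonneg_left h1 (by have := hψs0 0; positivity : 0 ≤ 3 * ψs 0)
         linarith only [hJ₀, h2])
     exact by
      refine ⟨B₂, fun ω hω => hB₁B ω (hB₂ ω hω), ?_, ?_⟩
      · have e1 : Real.exp (-(κ * J)) ≤ Real.exp (-(τ * J)) * (Real.exp (-(η * J)) *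
            Real.exp (-(τ * J))) := by
          rw [← Real.exp_add, ← Real.exp_add]
          refine Real.exp_le_exp.2 ?_
          have := mul_le_mul_of_nonneg_right (by linarith only [hη0, hη1, hτ4] : τ + (η + τ) ≤ κ) hJr.le
          linarith only [this]
        have e2 : Real.exp (-(τ * J)) * Pe F.p B₁ ≤ Pe F.p B₂ := by
          have := mul_le_mul_of_nonneg_right hhalf hB₁0.le
          linarith only [hPB₂, this]
        calc Real.exp (-(κ * J)) * Pe F.p B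
            ≤ Real.exp (-(τ * J)) * (Real.exp (-(η * J)) * Real.exp (-(τ * J))) * Pe F.p B :=
              mul_le_mul_of_nonneg_right e1 hB0.le
          _ = Real.exp (-(τ * J)) * (Real.exp (-(η * J)) * (Real.exp (-(τ * J)) * Pe F.p B)) := by
              ring
          _ ≤ Real.exp (-(τ * J)) * (Real.exp (-(η * J)) * Pe F.p B₀) := by
              refine mul_le_mul_of_nonneg_left ?_ (Real.exp_pos _).le
              exact mul_le_mul_of_nonneg_left hPB₀' (Real.exp_pos _).le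
          _ ≤ Real.exp (-(τ * J)) * Pe F.p B₁ := mul_le_mul_of_nonneg_left hPB₁ (Real.exp_pos _).le
          _ ≤ _ := e2
      · intro q' b' P' hq' hb' hb'' hP'
        exact ⟨Ch.mono (by omega) hCh₂, Lab.mono le_rfl le_rfl hb' hb' hb'' (by omega) hLab₂⟩

end Pool.ZCL
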