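import Pool.Agent.H84.S6.Pack

/-!
# Change of box, with the constants of the assembly
-/

set_option autoImplicit false

namespace Pool.ZCL

open Finset Real
open Pool.Agent.H49.Ent Pool.Agent.H32.Dense Pool.STK Pool.KA Pool.KSAT Pool.K2S Pool.PB Pool.KS6
open Pool.S6C

/-- **Change of box** (the form of the assembly of `XLStmt`). -/
theorem chb_box : ∀ {S : PCl 3} {a R h₁ : ℝ} {i₀ : Fin 3} {Q pi : ℝ}, AzH S a R h₁ i₀ Q pi →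
    ∀ {c : ℝ}, 0 < c → BTail S c Q → ∀ e h₂ x : ℝ, 0 < e → 0 < h₂ → h₂ ≤ 1 → 0 < x →
    x ≤ 1 / 4 → ∀ K : ℕ,
    ∃ (K' : ℕ) (b : ℝ), 0 < b ∧ ∀ κ y : ℝ, 0 < κ → 0 < y → ∃ ψ : ℝ, 0 < ψ ∧
    ∀ w v s s₁ s' : ℝ, 0 < w → w ≤ v → v ≤ w + b → 0 < s → pi - b ≤ s → s + y ≤ s₁ → s₁ < s' →
    s' < pi → v + s' + e ≤ Q →
    ∃ J₁ : ℕ, ∀ J ≥ J₁, ∀ (F : Fam 3 J) (B : F.Ω → Prop), S.St ψ J F B →
    ∀ z z' : F.Ω → Fin 3 → ℝ, AzF F i₀ ⌊Q * J⌋₊ ⌊s₁ * J⌋₊ ⌊w * J⌋₊ B z →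
    AzF F i₀ ⌊Q * J⌋₊ ⌊s' * J⌋₊ ⌊v * J⌋₊ B z' →
    ∀ (h : ⌊w * J⌋₊ + azJ Q w s J ≤ J) (h' : ⌊v * J⌋₊ + azJ Q v s' J ≤ J) (i₁ : Fin 3)
      (a P : ℕ), i₁ ≠ i₀ → (a : ℝ) ≤ x * azJ Q v s' J → (1 - x) * azJ Q v s' J ≤ P →
      P ≤ azJ Q v s' J →
      Ch (F.zm ⌊v * J⌋₊ (azJ Q v s' J) h' (Box.plkC ⌊s' * J⌋₊ i₀) z') i₁
        ⌊h₂ * azJ Q v s' J⌋₊ B →
      Lab (F.zm ⌊v * J⌋₊ (azJ Q v s' J) h' (Box.plkC ⌊s' * J⌋₊ i₀) z') i₁ (azJ Q v s' J) K a a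
        P B →
      ∃ B' : F.Ω → Prop, Sub B' B ∧ Real.exp (-(κ * J)) * Pe F.p B ≤ Pe F.p B' ∧
        Ch (F.zm ⌊w * J⌋₊ (azJ Q w s J) h (Box.plkC ⌊s * J⌋₊ i₀) z) i₁
          ⌊h₂ / 2 * azJ Q w s J⌋₊ B' ∧
        ∃ a' P' : ℕ, (a' : ℝ) ≤ 2 * x * azJ Q w s J ∧ (1 - 2 * x) * azJ Q w s J ≤ P' ∧
          Lab (F.zm ⌊w * J⌋₊ (azJ Q w s J) h (Box.plkC ⌊s * J⌋₊ i₀) z) i₁ (azJ Q w s J) K'
            a' a' P' B' := by
  classical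
  intro S a R h₁ i₀ Q pi H c hc hT e h₂ x he hh₂ hh₂1 hx hx4 K
  obtain ⟨K', hK'⟩ : ∃ K', K' = max K 1 := ⟨_, rfl⟩
  have hK1 : 1 ≤ K' := by rw [hK']; exact le_max_right _ _
  have hKK : K ≤ K' := by rw [hK']; exact le_max_left _ _
  obtain ⟨c₁, hcb⟩ := chb_class hK1
  obtain ⟨g, hgd⟩ : ∃ g, g = h₂ / 8 := ⟨_, rfl⟩
  have hg : 0 < g := by rw [hgd]; positivity
  have hg1 : g ≤ 1 / 8 := by rw [hgd]; linarith only [hh₂1]
  obtain ⟨b, hb⟩ : ∃ b, b = min (e * g / 16) (e * x / 16) := ⟨_, rfl⟩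
  have hb0 : 0 < b := by rw [hb]; exact lt_min (by positivity) (by positivity)
  have hb1 : b ≤ e * g / 16 := by rw [hb]; exact min_le_left _ _
  have hb2 : b ≤ e * x / 16 := by rw [hb]; exact min_le_right _ _
  refine ⟨K', b, hb0, fun κ y hκ hy => ?_⟩
  obtain ⟨ψ, hψ, hcb1⟩ := hcb H hT he hg (by linarith only [hh₂1, hx, hx4, hgd]) hκ hy
  refine ⟨ψ, hψ, ?_⟩
  intro w v s s₁ s' hw0 hwv hvw hs0 hpi hys hss hs'pi hws
  obtain ⟨J₂, hcb2⟩ := hcb1 w v s s₁ s' hw0.le hwv hs0.le hys hss.le hws (by linarith only [hb1, hpi])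
  obtain ⟨J₃, hJ₃⟩ := exists_nat_gt (2 / e + 64 * (c₁ + 10) / (e * x * h₂))
  refine ⟨max J₂ J₃, ?_⟩
  intro J hJ F B hSt z z' hz hz' h h' i₁ a P hi ha hP hPJ hCh hLab
  have hJ2 : J₂ ≤ J := (le_max_left _ _).trans hJ
  have hJ3 : 2 / e + 64 * (c₁ + 10) / (e * x * h₂) < J :=
    hJ₃.trans_le (by exact_mod_cast (le_max_right _ _).trans hJ)
  have q1 : 0 < 2 / e := by positivity
  have q2 : 0 < 64 * ((c₁ : ℝ) + 10) / (e * x * h₂) := by positivity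
  have hJr : (0 : ℝ) < J := by linarith only [hJ3, q1, q2]
  have hbig : 64 * ((c₁ : ℝ) + 10) ≤ e * x * h₂ * J := by
    have : 64 * ((c₁ : ℝ) + 10) / (e * x * h₂) ≤ J := by linarith only [hJ3, q1]
    rw [div_le_iff₀ (by positivity)] at this
    linarith only [this]
  exact by
   have hs'0 : 0 < s' := by linarith only [hy, hs0, hys, hss]
   obtain ⟨hadd, hJ0⟩ := azJ_add he hw0.le (by rw [max_eq_left hs0.le]; linarith only [hy, hwv, hys, hss, hws]) (s := s) (Q := Q)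
     (J := J) (by linarith only [hJ3, q2])
   obtain ⟨hadd', hJa⟩ := azJ_add he (hw0.le.trans hwv) (by rw [max_eq_left hs'0.le]; linarith only [hws])
     (s := s') (Q := Q) (J := J) (by linarith only [hJ3, q2])
   have hfl : ⌊w * (J : ℝ)⌋₊ ≤ ⌊v * (J : ℝ)⌋₊ :=
     Nat.floor_le_floor (mul_le_mul_of_nonneg_right hwv hJr.le)
   have hfs : ⌊s * (J : ℝ)⌋₊ ≤ ⌊s' * (J : ℝ)⌋₊ :=
     Nat.floor_le_floor (mul_le_mul_of_nonneg_right (by linarith only [hy, hys, hss]) hJr.le)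
   -- names
   obtain ⟨J0, hJ0e⟩ : ∃ J0, J0 = azJ Q w s J := ⟨_, rfl⟩
   obtain ⟨Ja, hJae⟩ : ∃ Ja, Ja = azJ Q v s' J := ⟨_, rfl⟩
   obtain ⟨X, hX⟩ : ∃ X, X = (⌊v * (J : ℝ)⌋₊ - ⌊w * (J : ℝ)⌋₊) + (⌊s' * (J : ℝ)⌋₊ - ⌊s * (J : ℝ)⌋₊) :=
     ⟨_, rfl⟩
   have hsum : Ja + X = J0 := by omega
   have hsumr : (Ja : ℝ) + X = J0 := by exact_mod_cast hsum
   have hXb : (X : ℝ) ≤ 2 * b * J + 2 := by
     have f1 : (⌊v * (J : ℝ)⌋₊ : ℝ) ≤ v * J := Nat.floor_le (mul_nonneg (hw0.le.trans hwv) hJr.le)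
     have f2 : w * J < ⌊w * (J : ℝ)⌋₊ + 1 := Nat.lt_floor_add_one _
     have f3 : (⌊s' * (J : ℝ)⌋₊ : ℝ) ≤ s' * J := Nat.floor_le (mul_nonneg hs'0.le hJr.le)
     have f4 : s * J < ⌊s * (J : ℝ)⌋₊ + 1 := Nat.lt_floor_add_one _
     have f5 : (X : ℝ) = ((⌊v * (J : ℝ)⌋₊ : ℝ) - ⌊w * (J : ℝ)⌋₊) +
         ((⌊s' * (J : ℝ)⌋₊ : ℝ) - ⌊s * (J : ℝ)⌋₊) := by
       rw [hX]
       push_cast [Nat.cast_sub hfl, Nat.cast_sub hfs]
       ring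
     have f6 : (v + s') * J ≤ (w + s + 2 * b) * J := mul_le_mul_of_nonneg_right (by linarith only [hvw, hpi, hs'pi]) hJr.le
     rw [f5]
     linarith only [f1, f2, f3, f4, f6]
   rw [← hJ0e] at hJ0
   exact by
    rw [← hJae] at hJa ha hP hPJ
    have hbJ : 2 * b * J ≤ x / 4 * J0 := by
      have h1 : 2 * b * J ≤ 2 * (e * x / 16) * J := by
        have := mul_le_mul_of_nonneg_right hb2 hJr.le
        linarith only [this]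
      have h2 : x / 4 * (e / 2 * J) ≤ x / 4 * J0 := mul_le_mul_of_nonneg_left hJ0 (by positivity)
      linarith only [h1, h2]
    have hc₁0 : (0 : ℝ) ≤ c₁ := Nat.cast_nonneg c₁
    have hbig0 : 32 * ((c₁ : ℝ) + 10) ≤ x * h₂ * J0 := by
      have h2 : x * h₂ * (e / 2 * J) ≤ x * h₂ * J0 := mul_le_mul_of_nonneg_left hJ0 (by positivity)
      linarith only [hbig, h2]
    have hJ0n : (0 : ℝ) ≤ J0 := Nat.cast_nonneg _
    have hJan : (0 : ℝ) ≤ Ja := Nat.cast_nonneg _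
    have hXn : (0 : ℝ) ≤ X := Nat.cast_nonneg _
    have hxJ : 32 * ((c₁ : ℝ) + 10) ≤ x * J0 := by
      have : x * h₂ * J0 ≤ x * 1 * J0 := by gcongr
      linarith only [hbig0, this]
    have hhJ : 32 * ((c₁ : ℝ) + 10) ≤ h₂ / 4 * J0 := by
      have : x * h₂ * J0 ≤ 1 / 4 * h₂ * J0 := by gcongr
      linarith only [hbig0, this]
    have hX1 : (X : ℝ) ≤ x / 2 * J0 := by linarith only [hh₂1, hgd, hg, hXb, hbJ, hxJ]
    have hX2 : (X : ℝ) ≤ 1 / 8 * J0 := by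
      have : x / 2 * J0 ≤ 1 / 8 * J0 := mul_le_mul_of_nonneg_right (by linarith only [hx4]) hJ0n
      linarith only [hh₂1, hgd, hg, hXb, hbJ, hxJ, this]
    obtain ⟨q, hq⟩ : ∃ q, q = ⌊h₂ * (Ja : ℝ)⌋₊ := ⟨_, rfl⟩
    have hq1 : h₂ * Ja < q + 1 := by rw [hq]; exact Nat.lt_floor_add_one _
    have hqJ : q ≤ Ja := by
      rw [hq]
      exact Nat.floor_le_of_le (mul_le_of_le_one_left hJan hh₂1)
    have haJ : (a : ℝ) ≤ x * J0 := ha.trans (mul_le_mul_of_nonneg_left (by linarith only [hsumr]) hx.le)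
    exact by
     have haJ' : (a : ℝ) ≤ 1 / 4 * Ja := ha.trans (mul_le_mul_of_nonneg_right hx4 hJan)
     have hP' : 3 / 4 * (Ja : ℝ) ≤ P := by
       refine le_trans ?_ hP
       exact mul_le_mul_of_nonneg_right (by linarith only [hx4]) hJan
     have hgJ : g * (J0 : ℝ) ≤ 1 / 8 * J0 := mul_le_mul_of_nonneg_right hg1 hJ0n
     have hgJ' : g * (J0 : ℝ) = h₂ / 8 * J0 := by rw [hgd]
     have hhX : h₂ * (X : ℝ) ≤ h₂ * (1 / 8 * J0) := mul_le_mul_of_nonneg_left hX2 hh₂.le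
     have hhJa : h₂ * (Ja : ℝ) = h₂ * J0 - h₂ * X := by
       rw [← hsumr]
       ring
     have hxc : x * (J0 : ℝ) ≤ 1 / 4 * J0 := mul_le_mul_of_nonneg_right hx4 hJ0n
     have hb5 : a + 5 ≤ Ja := by
       have : ((a + 5 : ℕ) : ℝ) ≤ (Ja : ℝ) := by
         push_cast
         linarith only [hh₂1, hgd, hg, hsumr, hXb, hbJ, hhJ, haJ, hgJ, hgJ', hxc]
       exact_mod_cast this
     obtain ⟨B', hB', hPB', hfin⟩ := hcb2 J hJ2 F B hSt z z' hz hz' h h' i₁ hi q a P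
       (by rw [← hJae]; exact hqJ) (by rw [← hJae]; exact hPJ) (by rw [← hJae]; exact hb5)
       (by rw [← hJ0e]; linarith only [hh₂1, hgd, hg, hsumr, hXb, hbJ, hhJ, haJ, hP', hgJ, hgJ', hxc]) (by rw [← hJ0e]; linarith only [hh₂1, hgd, hg, hhJ, hq1, hgJ', hhX, hhJa])
       (by rw [← hJ0e, ← hJae]; linarith only [hh₂1, hgd, hg, hsumr, hXb, hbJ, hhJ, haJ, hgJ, hgJ', hxc]) (by rw [hq, hJae]; exact hCh)
       (Lab.mono (F := F.zm ⌊v * J⌋₊ (azJ Q v s' J) h' (Box.plkC ⌊s' * J⌋₊ i₀) z') le_rfl hKK le_rfl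
         le_rfl (by omega) le_rfl hLab)
     obtain ⟨b', hb'⟩ : ∃ b', b' = a + (⌊v * (J : ℝ)⌋₊ - ⌊w * (J : ℝ)⌋₊) +
       (⌊s' * (J : ℝ)⌋₊ - ⌊s * (J : ℝ)⌋₊) + c₁ := ⟨_, rfl⟩
     have hb'X : b' = a + X + c₁ := by omega
     have hb'r : (b' : ℝ) ≤ 2 * x * J0 := by
       rw [hb'X]
       push_cast
       linarith only [hh₂1, hgd, hg, hXb, hbJ, hxJ, haJ]
     have hb'J : b' ≤ J0 := by
       have : (b' : ℝ) ≤ J0 := by linarith only [hh₂1, hgd, hg, hhJ, hgJ, hgJ', hxc, hb'r]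
       exact_mod_cast this
     exact by
      have h9 : 9 ≤ P := by
        have : (9 : ℝ) ≤ P := by linarith only [hh₂1, hgd, hg, hsumr, hXb, hbJ, hhJ, hP', hgJ, hgJ', hxc]
        exact_mod_cast this
      obtain ⟨hCh', hLab'⟩ := hfin ⌊h₂ / 2 * azJ Q w s J⌋₊ b' (P + X - 9) (by
          rw [← hJ0e]
          have f1 : (⌊h₂ / 2 * (J0 : ℝ)⌋₊ : ℝ) ≤ h₂ / 2 * J0 := Nat.floor_le (by positivity)
          have : ((⌊h₂ / 2 * (J0 : ℝ)⌋₊ + 4 : ℕ) : ℝ) ≤ (q : ℝ) := by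
            push_cast
            linarith only [hh₂1, hgd, hg, hhJ, hq1, hhX, hhJa, f1]
          have : ⌊h₂ / 2 * (J0 : ℝ)⌋₊ + 4 ≤ q := by exact_mod_cast this
          omega) hb'.ge (by rw [← hJ0e]; exact hb'J) (by omega)
      refine ⟨B', hB', hPB', hCh', b', P + X - 9, by rw [← hJ0e]; exact hb'r, ?_, hLab'⟩
      rw [← hJ0e]
      have h1 : ((P + X - 9 : ℕ) : ℝ) = P + X - 9 := by
        rw [Nat.cast_sub (by omega)]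
        push_cast
        ring
      rw [h1]
      have h2 : (1 - x) * (Ja : ℝ) = (1 - x) * J0 - (1 - x) * X := by
        rw [← hsumr]
        ring
      have h3 : (1 - x) * (X : ℝ) ≤ 1 * X := mul_le_mul_of_nonneg_right (by linarith only [hx]) hXn
      have h4 : (1 - 2 * x) * (J0 : ℝ) = (1 - x) * J0 - x * J0 := by ring
      linarith only [hh₂1, hgd, hg, hP, hxJ, h2, h3]

end Pool.ZCL
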